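import Pool.Agent.W286.O6.Six
import Pool.Agent.H422R3.T4O.Final

/-!
Averaging over the group.
-/

namespace Pool.Agent.W286.O6

open Finset Pool.Agent.H422R3.T34 Pool.Agent.H422R3.T4O MulAction

section sums

variable {H : Type} [Fintype H]

theorem sum_nth {n : ℕ} (i : Fin (n + 1)) (G : H → (Fin n → H) → ℕ) :
    ∑ q : Fin (n + 1) → H, G (q i) (fun l => q (i.succAbove l)) = ∑ a, ∑ q' : Fin n → H, G a q' := by
  classical
  rw [← Fintype.sum_prod_type' (f := G)]
  exact (Fintype.sum_equiv (Fin.insertNthEquiv (fun _ => H) i).symm _ _ (fun q => rfl))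

theorem sum_one {n : ℕ} (i : Fin (n + 1)) (f : H → ℕ) :
    ∑ q : Fin (n + 1) → H, f (q i) = Fintype.card H ^ n * ∑ a, f a := by
  classical
  rw [sum_nth i (fun a _ => f a)]
  rw [Finset.mul_sum]
  refine Finset.sum_congr rfl fun a _ => ?_
  rw [Finset.sum_const, Finset.card_univ, smul_eq_mul]
  simp

theorem sum_two' {n : ℕ} (i j : Fin (n + 2)) (hij : i ≠ j) (f : H → H → ℕ) :
    ∑ q : Fin (n + 2) → H, f (q i) (q j) = Fintype.card H ^ n * ∑ a, ∑ b, f a b := by
  classical
  obtain ⟨j', rfl⟩ := Fin.exists_succAbove_eq hij.symm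
  rw [sum_nth i (fun a q' => f a (q' j')), Finset.mul_sum]
  exact Finset.sum_congr rfl fun a _ => sum_one j' (f a)

theorem sum_three' {n : ℕ} (i j k : Fin (n + 3)) (hij : i ≠ j) (hik : i ≠ k) (hjk : j ≠ k)
    (f : H → H → H → ℕ) :
    ∑ q : Fin (n + 3) → H, f (q i) (q j) (q k) = Fintype.card H ^ n * ∑ a, ∑ b, ∑ c, f a b c := by
  classical
  obtain ⟨j', rfl⟩ := Fin.exists_succAbove_eq hij.symm
  obtain ⟨k', rfl⟩ := Fin.exists_succAbove_eq hik.symm
  rw [sum_nth i (fun a q' => f a (q' j') (q' k')), Finset.mul_sum]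
  exact Finset.sum_congr rfl fun a _ => sum_two' j' k' (fun h => hjk (by rw [h])) (f a)

end sums

variable {V H : Type} [DecidableEq V] [Group H] [Fintype H] [MulAction H V] {m : ℕ}

/-- the signed points -/
def sg (φ : Fin m × H → V) (v : H) (q : Fin m → H) (p : P m) : V :=
  φ (p.1, if p.2 then v * q p.1 else q p.1)

/-- triples of signed points -/
def ev (E : Finset (Finset V)) (φ : Fin m × H → V) (v : H) (q : Fin m → H) (a b c : P m) : Prop :=
  ({sg φ v q a, sg φ v q b, sg φ v q c} : Finset V) ∈ E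

/-- arcs -/
def ov (E : Finset (Finset V)) (φ : Fin m × H → V) (v : H) (q : Fin m → H) (i j : Fin m) : Prop :=
  ({sg φ v q (i, false), sg φ v q (i, true), sg φ v q (j, false)} : Finset V) ∈ E

section
variable (E : Finset (Finset V)) (hfree : K4Free E) (hinv : Inv H E)
  (h2 : ∀ a : H, a * a = 1)
  (φ : Fin m × H → V) (hφ : Function.Injective φ) (heq : ∀ i a v, φ (i, v * a) = v • φ (i, a))

include hφ in
omit [DecidableEq V] [Fintype H] [MulAction H V] in
theorem sg_ne (v : H) (q : Fin m → H) {a b : P m} (h : a.1 ≠ b.1) :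
    sg φ v q a ≠ sg φ v q b := fun h1 => h (Prod.ext_iff.mp (hφ h1)).1

include hφ in
omit [DecidableEq V] [Fintype H] [MulAction H V] in
theorem sg_ne' (v : H) (hv : v ≠ 1) (q : Fin m → H) (i : Fin m) :
    sg φ v q (i, false) ≠ sg φ v q (i, true) := by
  intro h1
  have := (Prod.ext_iff.mp (hφ h1)).2
  simp at this
  exact hv this

include h2 heq in
omit [DecidableEq V] [Fintype H] in
theorem sg_fl (v : H) (q : Fin m → H) (a : P m) : v • sg φ v q a = sg φ v q (fl a) := by
  obtain ⟨i, s⟩ := a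
  unfold sg fl
  rw [← heq]
  cases s
  · rfl
  · simp only [if_true, Bool.not_true, Bool.false_eq_true, if_false]
    rw [← mul_assoc, h2, one_mul]

include hinv h2 heq in
omit [Fintype H] in
theorem ev_fl (v : H) (q : Fin m → H) (a b c : P m) (h : ev E φ v q a b c) :
    ev E φ v q (fl a) (fl b) (fl c) := by
  unfold ev at h ⊢
  have := inv_triple E hinv v _ _ _ h
  rw [sg_fl h2 φ heq, sg_fl h2 φ heq, sg_fl h2 φ heq] at this
  exact this

include hfree hinv h2 hφ heq in
omit [Fintype H] in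
theorem lift (v : H) (hv : v ≠ 1) (q : Fin m → H) : Lift m (ev E φ v q) (ov E φ v q) := by
  have arc : ∀ (i : Fin m) (r : P m), ov E φ v q i r.1 →
      ({sg φ v q (i, false), sg φ v q (i, true), sg φ v q r} : Finset V) ∈ E := by
    intro i r hr
    obtain ⟨j, s⟩ := r
    unfold ov at hr
    cases s
    · exact hr
    · have := inv_triple E hinv v _ _ _ hr
      rw [sg_fl h2 φ heq, sg_fl h2 φ heq, sg_fl h2 φ heq] at this
      simp only [fl, Bool.not_false, Bool.not_true] at this
      rw [Finset.insert_comm] at this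
      exact this
  constructor
  · intro a b c h
    unfold ev at h ⊢
    rw [Finset.insert_comm]
    exact h
  · intro a b c h
    unfold ev at h ⊢
    rw [Finset.pair_comm (sg φ v q c)]
    exact h
  · exact ev_fl E hinv h2 φ heq v q
  · intro a b c d h1 h3 h4 h5 h6 h7
    exact hfree _ _ _ _ (sg_ne φ hφ v q h1) (sg_ne φ hφ v q h3) (sg_ne φ hφ v q h4)
      (sg_ne φ hφ v q h5) (sg_ne φ hφ v q h6) (sg_ne φ hφ v q h7)
  · rintro i b c h1 h3 h4 h5 h6 ⟨h7, h8⟩
    exact hfree (sg φ v q (i, false)) (sg φ v q (i, true)) (sg φ v q b) (sg φ v q c)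
      (sg_ne' φ hφ v hv q i) (sg_ne φ hφ v q h1) (sg_ne φ hφ v q h3)
      (sg_ne φ hφ v q h1) (sg_ne φ hφ v q h3) (sg_ne φ hφ v q h4)
      ⟨arc i b h5, arc i c h6, h7, h8⟩
  · rintro i j hij ⟨h5, h6⟩
    have a1 := arc i (j, false) h5
    have a2 := arc i (j, true) h5
    have a3 := arc j (i, false) h6
    have a4 := arc j (i, true) h6
    refine hfree (sg φ v q (i, false)) (sg φ v q (i, true)) (sg φ v q (j, false))
      (sg φ v q (j, true)) (sg_ne' φ hφ v hv q i) (sg_ne φ hφ v q hij) (sg_ne φ hφ v q hij)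
      (sg_ne φ hφ v q hij) (sg_ne φ hφ v q hij) (sg_ne' φ hφ v hv q j) ⟨a1, a2, ?_, ?_⟩
    · rw [Finset.pair_comm, Finset.insert_comm, Finset.pair_comm] at a3
      rw [Finset.insert_comm, Finset.pair_comm] at a3 ⊢
      convert a3 using 1
      ext w; simp only [Finset.mem_insert, Finset.mem_singleton]; tauto
    · convert a4 using 1
      ext w; simp only [Finset.mem_insert, Finset.mem_singleton]; tauto

end

end Pool.Agent.W286.O6
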