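import Mathlib

/-!
A verified branch and bound procedure: lower bounds for the size of a hitting set of a list of
clauses. A clause is a natural number; its bits below 64 are the elements, its higher part only
guides the search.
-/

namespace Pool.Agent.W286.O6

/-- the mask of the elements -/
def MM : ℕ := 18446744073709551615

/-- `2 ^ 64` -/
def TT : ℕ := 18446744073709551616

/-- evaluate a number before it is used -/
def frc (n : ℕ) (k : ℕ → Bool) : Bool := Nat.casesOn n (k 0) (fun m => k (m + 1))

theorem frc_eq (n : ℕ) (k : ℕ → Bool) : frc n k = k n := by cases n <;> rfl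

/-- the largest clause of a list and the number of clauses in a greedy packing -/
def scan : List ℕ → ℕ → ℕ → ℕ → (ℕ → ℕ → Bool) → Bool
  | [], best, _, cnt, k => k best cnt
  | c :: l, best, used, cnt, k =>
    bif Nat.beq (Nat.land c used) 0 then
      frc (Nat.lor used (Nat.land c MM)) fun u => frc (cnt + 1) fun n =>
        bif Nat.blt best c then scan l c u n k else scan l best u n k
    else
      bif Nat.blt best c then scan l c used cnt k else scan l best used cnt k

/-- remove the clauses which contain `b` -/
def dropC (b : ℕ) : List ℕ → List ℕ → (List ℕ → Bool) → Bool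
  | [], acc, k => k acc
  | c :: l, acc, k =>
    bif Nat.beq (Nat.land c b) 0 then dropC b l (c :: acc) k else dropC b l acc k

/-- remove `b` from the clauses -/
def zeroC (b : ℕ) : List ℕ → List ℕ → (List ℕ → Bool) → Bool
  | [], acc, k => k acc
  | c :: l, acc, k =>
    bif Nat.beq (Nat.land c b) 0 then zeroC b l (c :: acc) k
    else frc (TT + Nat.xor c b) fun d => zeroC b l (d :: acc) k

/-- every set which meets all clauses has at least `need` elements -/
def bb : ℕ → List ℕ → ℕ → Bool
  | 0, _, _ => false
  | f + 1, cs, need =>
    bif Nat.beq need 0 then true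
    else scan cs 0 0 0 fun best cnt =>
      bif Nat.beq best 0 then false
      else bif Nat.ble need cnt then true
      else frc (Nat.land best MM) fun m =>
        bif Nat.beq m 0 then true
        else frc (2 ^ Nat.log2 m) fun b =>
          frc (need - 1) fun need' =>
          (dropC b cs [] fun l => bb f l need') && (zeroC b cs [] fun l => bb f l need)

/-- the set `t` meets the clause `c` -/
def Hit (t : Finset ℕ) (c : ℕ) : Prop := ∃ i ∈ t, i < 64 ∧ c.testBit i = true

theorem dropC_eq (b : ℕ) : ∀ (cs acc : List ℕ) (k : List ℕ → Bool), dropC b cs acc k =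
    k ((cs.filter (fun c => Nat.beq (Nat.land c b) 0)).reverse ++ acc)
  | [], acc, k => rfl
  | c :: l, acc, k => by
    unfold dropC
    rcases h : Nat.beq (Nat.land c b) 0 with _ | _
    · rw [cond_false, dropC_eq b l acc k,
        List.filter_cons_of_neg (p := fun c => Nat.beq (Nat.land c b) 0)
          (by rw [h]; decide)]
    · rw [cond_true, dropC_eq b l (c :: acc) k,
        List.filter_cons_of_pos (p := fun c => Nat.beq (Nat.land c b) 0) h]
      simp

theorem zeroC_eq (b : ℕ) : ∀ (cs acc : List ℕ) (k : List ℕ → Bool), zeroC b cs acc k =
    k ((cs.map (fun c => if Nat.land c b = 0 then c else TT + Nat.xor c b)).reverse ++ acc)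
  | [], acc, k => rfl
  | c :: l, acc, k => by
    unfold zeroC
    by_cases h : Nat.land c b = 0
    · rw [h]
      change zeroC b l (c :: acc) k = _
      rw [zeroC_eq b l (c :: acc) k, List.map_cons, if_pos h]
      simp
    · have h' : Nat.beq (Nat.land c b) 0 = false := by
        rcases h2 : Nat.beq (Nat.land c b) 0 with _ | _
        · rfl
        · exact absurd (Nat.eq_of_beq_eq_true h2) h
      rw [h', cond_false, frc_eq, zeroC_eq b l _ k, List.map_cons, if_neg h]
      simp

/-- facts about the scan -/
theorem scan_spec (t : Finset ℕ) : ∀ (cs : List ℕ) (best used cnt : ℕ) (k : ℕ → ℕ → Bool),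
    (∀ c ∈ cs, Hit t c) → scan cs best used cnt k = true →
    ∃ b n u, (b = best ∨ b ∈ cs) ∧ k b n = true ∧
      n + (t.filter (fun i => i < 64 ∧ Nat.testBit u i = false)).card ≤
        cnt + (t.filter (fun i => i < 64 ∧ Nat.testBit used i = false)).card
  | [], best, used, cnt, k, _, h => ⟨best, cnt, used, Or.inl rfl, h, le_refl _⟩
  | c :: l, best, used, cnt, k, hc, h => by
    have hl : ∀ c ∈ l, Hit t c := fun d hd => hc d (List.mem_cons_of_mem _ hd)
    unfold scan at h
    rcases h1 : Nat.beq (Nat.land c used) 0 with _ | _
    · rw [h1, cond_false] at h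
      rcases h2 : Nat.blt best c with _ | _
      · rw [h2, cond_false] at h
        obtain ⟨b, n, u, hb, hk, hn⟩ := scan_spec t l best used cnt k hl h
        exact ⟨b, n, u, hb.imp id (List.mem_cons_of_mem _), hk, hn⟩
      · rw [h2, cond_true] at h
        obtain ⟨b, n, u, hb, hk, hn⟩ := scan_spec t l c used cnt k hl h
        refine ⟨b, n, u, Or.inr ?_, hk, hn⟩
        rcases hb with rfl | hb
        · exact List.mem_cons_self
        · exact List.mem_cons_of_mem _ hb
    · have h0 : Nat.land c used = 0 := Nat.eq_of_beq_eq_true h1
      rw [h1, cond_true, frc_eq, frc_eq] at h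
      have key : cnt + 1 + (t.filter (fun i => i < 64 ∧
          Nat.testBit (Nat.lor used (Nat.land c MM)) i = false)).card ≤
          cnt + (t.filter (fun i => i < 64 ∧ Nat.testBit used i = false)).card := by
        obtain ⟨i, hi, hi64, hci⟩ := hc c List.mem_cons_self
        have hui : used.testBit i = false := by
          have : (c &&& used).testBit i = false := by
            change (Nat.land c used).testBit i = false
            rw [h0]; exact Nat.zero_testBit i
          rw [Nat.testBit_and, hci, Bool.true_and] at this
          exact this
        have hMi : MM.testBit i = true := by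
          have hM : MM = 2 ^ 64 - 1 := by unfold MM; norm_num
          rw [hM, Nat.testBit_two_pow_sub_one]
          exact decide_eq_true hi64
        have hsub : insert i (t.filter (fun i => i < 64 ∧
            Nat.testBit (Nat.lor used (Nat.land c MM)) i = false)) ⊆
            t.filter (fun i => i < 64 ∧ Nat.testBit used i = false) := by
          intro j hj
          rw [Finset.mem_insert] at hj
          rcases hj with rfl | hj
          · exact Finset.mem_filter.mpr ⟨hi, hi64, hui⟩
          · rw [Finset.mem_filter] at hj ⊢
            refine ⟨hj.1, hj.2.1, ?_⟩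
            have := hj.2.2
            change (used ||| Nat.land c MM).testBit j = false at this
            rw [Nat.testBit_or, Bool.or_eq_false_iff] at this
            exact this.1
        have hnot : i ∉ t.filter (fun i => i < 64 ∧
            Nat.testBit (Nat.lor used (Nat.land c MM)) i = false) := by
          intro hj
          have := (Finset.mem_filter.mp hj).2.2
          change (used ||| (c &&& MM)).testBit i = false at this
          rw [Nat.testBit_or, Nat.testBit_and, hci, hMi] at this
          simp at this
        have hcard := Finset.card_le_card hsub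
        rw [Finset.card_insert_of_notMem hnot] at hcard
        omega
      rcases h2 : Nat.blt best c with _ | _
      · rw [h2, cond_false] at h
        obtain ⟨b, n, u, hb, hk, hn⟩ := scan_spec t l best _ _ k hl h
        exact ⟨b, n, u, hb.imp id (List.mem_cons_of_mem _), hk, hn.trans key⟩
      · rw [h2, cond_true] at h
        obtain ⟨b, n, u, hb, hk, hn⟩ := scan_spec t l c _ _ k hl h
        refine ⟨b, n, u, Or.inr ?_, hk, hn.trans key⟩
        rcases hb with rfl | hb
        · exact List.mem_cons_self
        · exact List.mem_cons_of_mem _ hb

theorem bb_sound : ∀ (f : ℕ) (cs : List ℕ) (need : ℕ) (t : Finset ℕ), (∀ c ∈ cs, Hit t c) →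
    bb f cs need = true → need ≤ t.card
  | 0, _, _, _, _, h => by simp [bb] at h
  | f + 1, cs, need, t, ht, h => by
    unfold bb at h
    rcases h0 : Nat.beq need 0 with _ | _
    swap
    · rw [Nat.eq_of_beq_eq_true h0]; exact Nat.zero_le _
    rw [h0, cond_false] at h
    obtain ⟨best, cnt, u, hb, hk, hn⟩ := scan_spec t cs 0 0 0 _ ht h
    have hcnt : cnt ≤ t.card := by
      have h1 := Finset.card_filter_le t (fun i => i < 64 ∧ Nat.testBit 0 i = false)
      omega
    rcases h1 : Nat.beq best 0 with _ | _
    swap
    · simp only [h1, cond_true, Bool.false_eq_true] at hk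
    simp only [h1, cond_false] at hk
    have hbest : best ∈ cs := by
      rcases hb with rfl | hb
      · simp at h1
      · exact hb
    rcases h2 : Nat.ble need cnt with _ | _
    swap
    · exact (Nat.le_of_ble_eq_true h2).trans hcnt
    simp only [h2, cond_false, frc_eq] at hk
    rcases h3 : Nat.beq (Nat.land best MM) 0 with _ | _
    swap
    · exfalso
      have h3' := Nat.eq_of_beq_eq_true h3
      obtain ⟨i, _, hi64, hci⟩ := ht best hbest
      have : (best &&& MM).testBit i = false := by
        change (Nat.land best MM).testBit i = false
        rw [h3']; exact Nat.zero_testBit i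
      have hM : MM = 2 ^ 64 - 1 := by unfold MM; norm_num
      rw [Nat.testBit_and, hci, hM, Nat.testBit_two_pow_sub_one] at this
      simp [hi64] at this
    simp only [h3, cond_false] at hk
    set e := Nat.log2 (Nat.land best MM) with he
    have he64 : e < 64 := by
      rw [he, Nat.log2_lt (by intro h; rw [h] at h3; simp at h3)]
      have : Nat.land best MM ≤ MM := Nat.and_le_right
      have hM : MM < 2 ^ 64 := by unfold MM; norm_num
      omega
    rw [Bool.and_eq_true] at hk
    obtain ⟨hk1, hk2⟩ := hk
    rw [dropC_eq] at hk1
    rw [zeroC_eq] at hk2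
    have hand : ∀ c : ℕ, Nat.land c (2 ^ e) = 0 → c.testBit e = false := by
      intro c hc
      have : (c &&& 2 ^ e).testBit e = false := by
        change (Nat.land c (2 ^ e)).testBit e = false
        rw [hc]; exact Nat.zero_testBit e
      rw [Nat.testBit_and, Nat.testBit_two_pow_self, Bool.and_true] at this
      exact this
    by_cases het : e ∈ t
    · have ih := bb_sound f _ (need - 1) (t.erase e) ?_ hk1
      · rw [Finset.card_erase_of_mem het] at ih
        have : 0 < t.card := Finset.card_pos.mpr ⟨e, het⟩
        omega
      · intro c hc
        rw [List.append_nil, List.mem_reverse, List.mem_filter] at hc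
        obtain ⟨i, hi, hi64, hci⟩ := ht c hc.1
        refine ⟨i, Finset.mem_erase.mpr ⟨?_, hi⟩, hi64, hci⟩
        rintro rfl
        have := hand c (Nat.eq_of_beq_eq_true hc.2)
        rw [hci] at this
        exact absurd this (by decide)
    · refine bb_sound f _ need t ?_ hk2
      intro c hc
      rw [List.append_nil, List.mem_reverse, List.mem_map] at hc
      obtain ⟨d, hd, rfl⟩ := hc
      obtain ⟨i, hi, hi64, hdi⟩ := ht d hd
      refine ⟨i, hi, hi64, ?_⟩
      split_ifs with hz
      · exact hdi
      · have hie : e ≠ i := by rintro rfl; exact het hi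
        have hT : TT = 2 ^ 64 := by unfold TT; norm_num
        rw [hT, Nat.testBit_two_pow_add_gt hi64]
        change (d ^^^ 2 ^ e).testBit i = true
        rw [Nat.testBit_xor, hdi, Nat.testBit_two_pow_of_ne hie]
        rfl

end Pool.Agent.W286.O6
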