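import Pool.Agent.W286.O6.Sem

/-!
Counting triples of signed points.
-/

namespace Pool.Agent.W286.O6

open Finset

section sym

variable {m : ℕ}

/-- sums over ordered triples of a symmetric function -/
theorem sum_sym (F : Fin m → Fin m → Fin m → ℕ) (h12 : ∀ i j k, F i j k = F j i k)
    (h23 : ∀ i j k, F i j k = F i k j) (h0 : ∀ i j k, i = j ∨ i = k ∨ j = k → F i j k = 0) :
    ∑ i, ∑ j, ∑ k, F i j k = 6 * ∑ i, ∑ j, ∑ k, if i < j ∧ j < k then F i j k else 0 := by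
  set A : Fin m → Fin m → Fin m → ℕ := fun i j k => if i < j ∧ j < k then F i j k else 0 with hA
  have key : ∀ i j k, F i j k = A i j k + A i k j + A j i k + A j k i + A k i j + A k j i := by
    intro i j k
    simp only [hA]
    by_cases hij : i = j
    · subst hij
      rw [h0 i i k (Or.inl rfl), h0 i k i (Or.inr (Or.inl rfl)), h0 k i i (Or.inr (Or.inr rfl))]
      simp
    by_cases hik : i = k
    · subst hik
      rw [h0 i j i (Or.inr (Or.inl rfl)), h0 i i j (Or.inl rfl), h0 j i i (Or.inr (Or.inr rfl))]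
      simp
    by_cases hjk : j = k
    · subst hjk
      rw [h0 i j j (Or.inr (Or.inr rfl)), h0 j i j (Or.inr (Or.inl rfl)), h0 j j i (Or.inl rfl)]
      simp
    have e1 : F i k j = F i j k := (h23 i j k).symm
    have e2 : F j i k = F i j k := (h12 i j k).symm
    have e3 : F j k i = F i j k := by rw [h23 j k i, e2]
    have e4 : F k i j = F i j k := by rw [h12 k i j, e1]
    have e5 : F k j i = F i j k := by rw [h12 k j i, e3]
    rw [e1, e2, e3, e4, e5]
    rcases lt_or_gt_of_ne hij with p | p <;> rcases lt_or_gt_of_ne hik with q | q <;>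
      rcases lt_or_gt_of_ne hjk with r | r
    · simp [p, q, r, p.not_gt, q.not_gt, r.not_gt]
    · simp [p, q, r, p.not_gt, q.not_gt, r.not_gt]
    · exact absurd (p.trans r) q.not_gt
    · simp [p, q, r, p.not_gt, q.not_gt, r.not_gt]
    · simp [p, q, r, p.not_gt, q.not_gt, r.not_gt]
    · exact absurd (q.trans r) p.not_gt
    · simp [p, q, r, p.not_gt, q.not_gt, r.not_gt]
    · simp [p, q, r, p.not_gt, q.not_gt, r.not_gt]
  have s1 : ∑ i, ∑ j, ∑ k, A i k j = ∑ i, ∑ j, ∑ k, A i j k := by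
    refine Finset.sum_congr rfl fun i _ => Finset.sum_comm
  have s2 : ∑ i, ∑ j, ∑ k, A j i k = ∑ i, ∑ j, ∑ k, A i j k := Finset.sum_comm
  have s3 : ∑ i, ∑ j, ∑ k, A j k i = ∑ i, ∑ j, ∑ k, A i j k := by
    calc ∑ i, ∑ j, ∑ k, A j k i = ∑ j, ∑ i, ∑ k, A j k i := Finset.sum_comm
      _ = ∑ j, ∑ k, ∑ i, A j k i := Finset.sum_congr rfl fun j _ => Finset.sum_comm
  have s4 : ∑ i, ∑ j, ∑ k, A k i j = ∑ i, ∑ j, ∑ k, A i j k := by
    calc ∑ i, ∑ j, ∑ k, A k i j = ∑ i, ∑ k, ∑ j, A k i j :=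
          Finset.sum_congr rfl fun i _ => Finset.sum_comm
      _ = ∑ k, ∑ i, ∑ j, A k i j := Finset.sum_comm
  have s5 : ∑ i, ∑ j, ∑ k, A k j i = ∑ i, ∑ j, ∑ k, A i j k := by
    calc ∑ i, ∑ j, ∑ k, A k j i = ∑ j, ∑ i, ∑ k, A k j i := Finset.sum_comm
      _ = ∑ j, ∑ k, ∑ i, A k j i := Finset.sum_congr rfl fun j _ => Finset.sum_comm
      _ = ∑ k, ∑ j, ∑ i, A k j i := Finset.sum_comm
  calc ∑ i, ∑ j, ∑ k, F i j k
      = ∑ i, ∑ j, ∑ k, (A i j k + A i k j + A j i k + A j k i + A k i j + A k j i) := by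
        simp_rw [← key]
    _ = (∑ i, ∑ j, ∑ k, A i j k) + (∑ i, ∑ j, ∑ k, A i k j) + (∑ i, ∑ j, ∑ k, A j i k) +
        (∑ i, ∑ j, ∑ k, A j k i) + (∑ i, ∑ j, ∑ k, A k i j) + (∑ i, ∑ j, ∑ k, A k j i) := by
        simp only [Finset.sum_add_distrib]
    _ = 6 * ∑ i, ∑ j, ∑ k, A i j k := by rw [s1, s2, s3, s4, s5]; ring

end sym

open Classical in
/-- indicator of a triple of signed points -/
noncomputable def ie {m : ℕ} (e : P m → P m → P m → Prop) (p q r : P m) : ℕ :=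
  if (p.1 ≠ q.1 ∧ p.1 ≠ r.1 ∧ q.1 ≠ r.1) ∧ e p q r then 1 else 0

open Classical in
theorem ie_congr {m m' : ℕ} {e : P m → P m → P m → Prop} {e' : P m' → P m' → P m' → Prop}
    {p q r : P m} {p' q' r' : P m'}
    (h : ((p.1 ≠ q.1 ∧ p.1 ≠ r.1 ∧ q.1 ≠ r.1) ∧ e p q r) ↔
      ((p'.1 ≠ q'.1 ∧ p'.1 ≠ r'.1 ∧ q'.1 ≠ r'.1) ∧ e' p' q' r')) :
    ie e p q r = ie e' p' q' r' := by
  unfold ie
  exact if_congr h rfl rfl

/-- ordered triples of signed points in `e` -/
noncomputable def SS {m : ℕ} (e : P m → P m → P m → Prop) : ℕ :=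
  ∑ p : P m, ∑ q : P m, ∑ r : P m, ie e p q r

/-- triples of signed points in `e` up to order and sign -/
noncomputable def NN {m : ℕ} (e : P m → P m → P m → Prop) : ℕ :=
  ∑ i : Fin m, ∑ j : Fin m, ∑ k : Fin m, if i < j ∧ j < k then
    ∑ b : Bool, ∑ c : Bool, ie e (i, false) (j, b) (k, c) else 0

variable {m : ℕ} {e : P m → P m → P m → Prop} {o : Fin m → Fin m → Prop}

theorem Lift.ie12 (h : Lift m e o) (p q r : P m) : ie e p q r = ie e q p r := by
  refine ie_congr ?_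
  constructor
  · rintro ⟨⟨a, b, c⟩, d⟩; exact ⟨⟨a.symm, c, b⟩, h.s12 _ _ _ d⟩
  · rintro ⟨⟨a, b, c⟩, d⟩; exact ⟨⟨a.symm, c, b⟩, h.s12 _ _ _ d⟩

theorem Lift.ie23 (h : Lift m e o) (p q r : P m) : ie e p q r = ie e p r q := by
  refine ie_congr ?_
  constructor
  · rintro ⟨⟨a, b, c⟩, d⟩; exact ⟨⟨b, a, c.symm⟩, h.s23 _ _ _ d⟩
  · rintro ⟨⟨a, b, c⟩, d⟩; exact ⟨⟨b, a, c.symm⟩, h.s23 _ _ _ d⟩

theorem Lift.iefl (h : Lift m e o) (p q r : P m) : ie e (fl p) (fl q) (fl r) = ie e p q r := by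
  refine ie_congr ?_
  rw [h.flip_iff]
  rfl

theorem SS_eq_sum (e : P m → P m → P m → Prop) : SS e = ∑ i : Fin m, ∑ j : Fin m, ∑ k : Fin m,
    ∑ a : Bool, ∑ b : Bool, ∑ c : Bool, ie e (i, a) (j, b) (k, c) := by
  unfold SS
  simp only [Fintype.sum_prod_type]
  refine Finset.sum_congr rfl fun i _ => ?_
  rw [Finset.sum_comm]
  refine Finset.sum_congr rfl fun j _ => ?_
  calc ∑ a : Bool, ∑ b : Bool, ∑ k : Fin m, ∑ c : Bool, ie e (i, a) (j, b) (k, c)
      = ∑ a : Bool, ∑ k : Fin m, ∑ b : Bool, ∑ c : Bool, ie e (i, a) (j, b) (k, c) :=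
        Finset.sum_congr rfl fun a _ => Finset.sum_comm
    _ = ∑ k : Fin m, ∑ a : Bool, ∑ b : Bool, ∑ c : Bool, ie e (i, a) (j, b) (k, c) :=
        Finset.sum_comm

theorem Lift.SS_eq (h : Lift m e o) : SS e = 12 * NN e := by
  rw [SS_eq_sum]
  rw [sum_sym (fun i j k => ∑ a : Bool, ∑ b : Bool, ∑ c : Bool, ie e (i, a) (j, b) (k, c))]
  · unfold NN
    have : ∀ i j k : Fin m, (∑ a : Bool, ∑ b : Bool, ∑ c : Bool, ie e (i, a) (j, b) (k, c)) =
        2 * ∑ b : Bool, ∑ c : Bool, ie e (i, false) (j, b) (k, c) := by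
      intro i j k
      simp only [Fintype.sum_bool]
      have f1 := h.iefl (i, false) (j, false) (k, false)
      have f2 := h.iefl (i, false) (j, false) (k, true)
      have f3 := h.iefl (i, false) (j, true) (k, false)
      have f4 := h.iefl (i, false) (j, true) (k, true)
      simp only [fl, Bool.not_false, Bool.not_true] at f1 f2 f3 f4
      rw [f1, f2, f3, f4]
      ring
    simp_rw [this]
    rw [show (12 : ℕ) = 6 * 2 by norm_num, mul_assoc]
    congr 1
    rw [Finset.mul_sum]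
    refine Finset.sum_congr rfl fun i _ => ?_
    rw [Finset.mul_sum]
    refine Finset.sum_congr rfl fun j _ => ?_
    rw [Finset.mul_sum]
    refine Finset.sum_congr rfl fun k _ => ?_
    split_ifs <;> simp
  · intro i j k
    rw [Finset.sum_comm]
    refine Finset.sum_congr rfl fun a _ => Finset.sum_congr rfl fun b _ =>
      Finset.sum_congr rfl fun c _ => h.ie12 _ _ _
  · intro i j k
    refine Finset.sum_congr rfl fun a _ => ?_
    rw [Finset.sum_comm]
    refine Finset.sum_congr rfl fun b _ =>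
      Finset.sum_congr rfl fun c _ => h.ie23 _ _ _
  · intro i j k hijk
    refine Finset.sum_eq_zero fun a _ => Finset.sum_eq_zero fun b _ =>
      Finset.sum_eq_zero fun c _ => ?_
    unfold ie
    rw [if_neg]
    rintro ⟨⟨p, q, r⟩, -⟩
    rcases hijk with rfl | rfl | rfl
    · exact p rfl
    · exact q rfl
    · exact r rfl

theorem SS_comp {m' : ℕ} (e : P m → P m → P m → Prop) (f : Fin m' ≃ Fin m) :
    SS (fun p q r : P m' => e (f p.1, p.2) (f q.1, q.2) (f r.1, r.2)) = SS e := by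
  unfold SS
  let g : P m' ≃ P m := Equiv.prodCongr f (Equiv.refl Bool)
  refine Fintype.sum_equiv g _ _ fun p => Fintype.sum_equiv g _ _ fun q =>
    Fintype.sum_equiv g _ _ fun r => ?_
  refine ie_congr ?_
  simp only [g, Equiv.prodCongr_apply, Prod.map, Equiv.refl_apply, ne_eq, f.injective.eq_iff]

theorem Lift.NN_comp {m' : ℕ} (h : Lift m e o) (f : Fin m' ≃ Fin m) :
    NN (fun p q r : P m' => e (f p.1, p.2) (f q.1, q.2) (f r.1, r.2)) = NN e := by
  have h1 := (h.comp f f.injective).SS_eq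
  have h2 := h.SS_eq
  have h3 := SS_comp e f
  omega

open Classical in
theorem card_TS {e : P 5 → P 5 → P 5 → Prop} : NN e + (TS e).card = 40 := by
  have h1 : NN e = ∑ n ∈ Finset.range 40, ie e (dec5 n).1 (dec5 n).2.1 (dec5 n).2.2 := by
    unfold NN
    simp only [Fin.sum_univ_five, Fintype.sum_bool, Finset.sum_range_succ, Finset.sum_range_zero]
    simp [dec5, tr5]
    ring
  have h2 : ∀ n ∈ Finset.range 40, ie e (dec5 n).1 (dec5 n).2.1 (dec5 n).2.2 =
      if e (dec5 n).1 (dec5 n).2.1 (dec5 n).2.2 then 1 else 0 := by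
    intro n hn
    unfold ie
    refine if_congr ?_ rfl rfl
    rw [and_iff_right]
    rw [Finset.mem_range] at hn
    have : ∀ n < 40, (dec5 n).1.1 ≠ (dec5 n).2.1.1 ∧ (dec5 n).1.1 ≠ (dec5 n).2.2.1 ∧
        (dec5 n).2.1.1 ≠ (dec5 n).2.2.1 := by decide +kernel
    exact this n hn
  rw [h1, Finset.sum_congr rfl h2, ← Finset.card_filter]
  unfold TS
  rw [Finset.card_filter_add_card_filter_not, Finset.card_range]

end Pool.Agent.W286.O6
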