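import Pool.Agent.W286.O6.Tot

/-!
Coverings invariant under a free elementary abelian 2-group with five or six orbits.
-/

namespace Pool.Agent.W286.O6

open Finset MulAction
open Pool.Agent.H422R3.T34 (K4Free Inv Covers W)
open Pool.Agent.H422R3.T4O (turan turan0 turan1 turan2 cases3 six_choose orbits compl_facts)

theorem K5 (e : O6.P (2 + 3) → O6.P (2 + 3) → O6.P (2 + 3) → Prop)
    (o : Fin (2 + 3) → Fin (2 + 3) → Prop) (h : Lift (2 + 3) e o) : 24 * AA o + SS e ≤ 540 := by
  have h1 := five h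
  have h2 := h.SS_eq
  change SS e = 12 * NN e at h2
  rw [h2]
  have h3 : 2 * AA o + NN e ≤ 45 := h1.2.1
  omega

theorem K6 (e : O6.P (3 + 3) → O6.P (3 + 3) → O6.P (3 + 3) → Prop)
    (o : Fin (3 + 3) → Fin (3 + 3) → Prop) (h : Lift (3 + 3) e o) : 24 * AA o + SS e ≤ 960 := by
  have h1 : 2 * AA o + NN e ≤ 80 := six h
  have h2 := h.SS_eq
  rw [h2]
  omega

variable {V H : Type} [Fintype V] [DecidableEq V] [Group H] [Fintype H] [MulAction H V]

/-- exactly five orbits -/
theorem main5 (h2 : ∀ a : H, a * a = 1) (hact : ∀ (a : H) (x : V), a • x = x → a = 1)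
    (horb : Nat.card (orbitRel.Quotient H V) = 5) (G : Finset (Finset V))
    (hG : ∀ e ∈ G, e.card = 3) (hcov : Covers G) (hinv : Inv H G) :
    115 * Fintype.card H ^ 3 + 20 * Fintype.card H ≤ 12 * G.card + 99 * Fintype.card H ^ 2 := by
  obtain ⟨φ, hφ, heq⟩ := orbits hact horb
  obtain ⟨E, hE, hfree, hinvE, hcard⟩ := compl_facts (H := H) G hG hcov hinv
  have hb := bound_E (n := 2) E hE hfree hinvE h2 hact K5 (fun R hR => T3_five hR) φ hφ heq
  have hV : Fintype.card V = 5 * Fintype.card H := by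
    rw [← Fintype.card_congr (Equiv.ofBijective φ hφ), Fintype.card_prod, Fintype.card_fin]
  rw [hV] at hcard
  have hpos : 0 < Fintype.card H := Fintype.card_pos
  obtain ⟨k, hk⟩ : ∃ k, Fintype.card H = k + 1 := ⟨Fintype.card H - 1, by omega⟩
  rw [hk] at hcard hb ⊢
  rw [Nat.add_sub_cancel] at hb
  have h6 := six_choose (5 * k + 3)
  rw [show 5 * k + 3 + 2 = 5 * (k + 1) by ring, ← hcard] at h6
  nlinarith

/-- exactly six orbits -/
theorem main6 (h2 : ∀ a : H, a * a = 1) (hact : ∀ (a : H) (x : V), a • x = x → a = 1)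
    (horb : Nat.card (orbitRel.Quotient H V) = 6) (G : Finset (Finset V))
    (hG : ∀ e ∈ G, e.card = 3) (hcov : Covers G) (hinv : Inv H G) :
    16 * Fintype.card H ^ 3 + 2 * Fintype.card H ≤ G.card + 12 * Fintype.card H ^ 2 := by
  obtain ⟨φ, hφ, heq⟩ := orbits hact horb
  obtain ⟨E, hE, hfree, hinvE, hcard⟩ := compl_facts (H := H) G hG hcov hinv
  have hb := bound_E (n := 3) E hE hfree hinvE h2 hact K6 (fun R hR => T3_six hR) φ hφ heq
  have hV : Fintype.card V = 6 * Fintype.card H := by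
    rw [← Fintype.card_congr (Equiv.ofBijective φ hφ), Fintype.card_prod, Fintype.card_fin]
  rw [hV] at hcard
  have hpos : 0 < Fintype.card H := Fintype.card_pos
  obtain ⟨k, hk⟩ : ∃ k, Fintype.card H = k + 1 := ⟨Fintype.card H - 1, by omega⟩
  rw [hk] at hcard hb ⊢
  rw [Nat.add_sub_cancel] at hb
  have h6 := six_choose (6 * k + 4)
  rw [show 6 * k + 4 + 2 = 6 * (k + 1) by ring, ← hcard] at h6
  nlinarith

theorem num5 (N g : ℕ) (hN : 1 ≤ N) (h : 115 * N ^ 3 + 20 * N ≤ 12 * g + 99 * N ^ 2) :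
    turan (5 * N) ≤ g := by
  rcases cases3 N with h0 | h0 | ⟨k, hk⟩ | ⟨k, hk⟩ | ⟨k, hk⟩
  · omega
  · subst h0
    rw [show turan (5 * 1) = 3 by decide]; omega
  · subst hk
    rw [show 5 * (3 * (k + 1)) = 3 * ((5 * k + 4) + 1) by ring, turan0]
    nlinarith
  · subst hk
    rw [show 5 * (3 * (k + 1) + 1) = 3 * (5 * k + 6) + 2 by ring, turan2]
    nlinarith
  · subst hk
    rw [show 5 * (3 * k + 2) = 3 * ((5 * k + 2) + 1) + 1 by ring, turan1]
    nlinarith

theorem num6 (N g : ℕ) (hN : 1 ≤ N) (h : 16 * N ^ 3 + 2 * N ≤ g + 12 * N ^ 2) :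
    turan (6 * N) ≤ g := by
  obtain ⟨M, rfl⟩ : ∃ M, N = M + 1 := ⟨N - 1, by omega⟩
  rw [show 6 * (M + 1) = 3 * ((2 * M + 1) + 1) by ring, turan0]
  nlinarith

/-- five or six orbits -/
theorem lower (h2 : ∀ a : H, a * a = 1) (hact : ∀ (a : H) (x : V), a • x = x → a = 1)
    (horb : Nat.card (orbitRel.Quotient H V) = 5 ∨ Nat.card (orbitRel.Quotient H V) = 6)
    (G : Finset (Finset V)) (hG : ∀ e ∈ G, e.card = 3) (hcov : Covers G) (hinv : Inv H G) :
    turan (Fintype.card V) ≤ G.card := by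
  have hpos : 0 < Fintype.card H := Fintype.card_pos
  rcases horb with horb | horb
  · obtain ⟨φ, hφ, heq⟩ := orbits hact horb
    have hV : Fintype.card V = 5 * Fintype.card H := by
      rw [← Fintype.card_congr (Equiv.ofBijective φ hφ), Fintype.card_prod, Fintype.card_fin]
    rw [hV]
    exact num5 _ _ hpos (main5 h2 hact horb G hG hcov hinv)
  · obtain ⟨φ, hφ, heq⟩ := orbits hact horb
    have hV : Fintype.card V = 6 * Fintype.card H := by
      rw [← Fintype.card_congr (Equiv.ofBijective φ hφ), Fintype.card_prod, Fintype.card_fin]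
    rw [hV]
    exact num6 _ _ hpos (main6 h2 hact horb G hG hcov hinv)

/-! ### Turán's construction with six orbits -/

/-- the group of order two -/
abbrev C2 : Type := Multiplicative (ZMod 2)

/-- the vertices -/
def W2 (H : Type) : Type := W (H × C2)

section
variable (H : Type) [Group H] [Fintype H] [DecidableEq H]

instance : DecidableEq (W2 H) := inferInstanceAs (DecidableEq (W (H × C2)))
instance : Fintype (W2 H) := inferInstanceAs (Fintype (W (H × C2)))

/-- the action of the larger group -/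
def up {H : Type} [Group H] (a : H) (p : W (H × C2)) : W (H × C2) := ((a, 1) : H × C2) • p

instance : MulAction H (W2 H) where
  smul a p := up a p
  one_smul p := @one_smul (H × C2) (W (H × C2)) _ _ p
  mul_smul a b p := by
    have h := mul_smul ((a, 1) : H × C2) ((b, 1) : H × C2) (show W (H × C2) from p)
    rw [Prod.mk_mul_mk, one_mul] at h
    exact h

omit [Fintype H] [DecidableEq H] in
theorem W2_free (a : H) (x : W2 H) (h : a • x = x) : a = 1 := by
  have h1 : ((a, 1) : H × C2) = 1 := Pool.Agent.H422R3.T34.W_free (H × C2) (a, 1) x h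
  exact (Prod.ext_iff.mp h1).1

omit [Fintype H] [DecidableEq H] in
theorem W2_orbits [Finite H] : Nat.card (orbitRel.Quotient H (W2 H)) = 6 := by
  have e : orbitRel.Quotient H (W2 H) ≃ Fin 3 × C2 :=
    { toFun := Quotient.lift (fun x : W2 H => ((x : Fin 3 × (H × C2)).1,
        (x : Fin 3 × (H × C2)).2.2)) (by
        rintro x y ⟨a, ha⟩
        have h1 : ((y : Fin 3 × (H × C2)).1, (a, (1 : C2)) * (y : Fin 3 × (H × C2)).2) =
          (x : Fin 3 × (H × C2)) := ha
        have h3 := congrArg (fun z : Fin 3 × (H × C2) => (z.1, z.2.2)) h1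
        simp only [Prod.snd_mul, one_mul] at h3
        exact h3.symm)
      invFun := fun i => Quotient.mk _ ((i.1, ((1 : H), i.2)) : Fin 3 × (H × C2))
      left_inv := by
        intro q
        induction q using Quotient.inductionOn with
        | h x =>
          apply Quotient.sound
          refine ⟨(x : Fin 3 × (H × C2)).2.1⁻¹, ?_⟩
          change ((x : Fin 3 × (H × C2)).1, ((x : Fin 3 × (H × C2)).2.1⁻¹, (1 : C2)) *
            (x : Fin 3 × (H × C2)).2) = ((x : Fin 3 × (H × C2)).1,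
            ((1 : H), (x : Fin 3 × (H × C2)).2.2))
          refine Prod.ext rfl (Prod.ext ?_ ?_)
          · exact inv_mul_cancel _
          · exact one_mul _
      right_inv := by
        intro i
        rfl }
  rw [Nat.card_congr e, Nat.card_eq_fintype_card, Fintype.card_prod, Fintype.card_fin]
  have : Fintype.card C2 = 2 := ZMod.card 2
  rw [this]

omit [Group H] [DecidableEq H] in
theorem W2_card : Fintype.card (W2 H) = 6 * Fintype.card H := by
  have h1 : Fintype.card (W2 H) = Fintype.card (Fin 3 × (H × C2)) := rfl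
  have h3 : Fintype.card C2 = 2 := ZMod.card 2
  rw [h1, Fintype.card_prod, Fintype.card_prod, Fintype.card_fin, h3]
  ring

/-- Turán's construction -/
theorem upper6 : ∃ G : Finset (Finset (W2 H)), (∀ e ∈ G, e.card = 3) ∧ Covers G ∧ Inv H G ∧
    G.card ≤ turan (Fintype.card (W2 H)) := by
  obtain ⟨G, h1, h3, h4, h5⟩ := Pool.Agent.H422R3.T34.upper (H × C2)
  refine ⟨G, h1, h3, fun a e he => h4 (a, 1) e he, ?_⟩
  refine h5.trans (le_of_eq ?_)
  have h6 : Fintype.card C2 = 2 := ZMod.card 2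
  have hpos : 0 < Fintype.card H := Fintype.card_pos
  rw [W2_card, Fintype.card_prod, h6]
  obtain ⟨k, hk⟩ : ∃ k, Fintype.card H = k + 1 := ⟨Fintype.card H - 1, by omega⟩
  rw [hk, show 6 * (k + 1) = 3 * ((2 * k + 1) + 1) by ring, turan0,
    show (k + 1) * 2 - 1 = 2 * k + 1 by omega, show 2 * ((k + 1) * 2) - 1 = 4 * k + 3 by omega]
  ring

end

end Pool.Agent.W286.O6
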