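import Pool.Agent.W286.O6.Cnt

/-!
The inequalities for five orbits.
-/

namespace Pool.Agent.W286.O6

open Finset

/-- one bit -/
def am (x : Bool) (a b : ℕ) : ℕ := bif x then 2 ^ a else 2 ^ b

theorem testBit_am (x : Bool) (a b c : ℕ) :
    (am x a b).testBit c = true ↔ (x = true ∧ a = c) ∨ (x = false ∧ b = c) := by
  unfold am
  cases x
  · rw [cond_false, Nat.testBit_two_pow]; simp
  · rw [cond_true, Nat.testBit_two_pow]; simp

/-- digraph on five points without the pair `3, 4` -/
def mk9 (n : ℕ) : ℕ :=
  am (n.testBit 0) 1 5 ||| (am (n.testBit 1) 2 10 ||| (am (n.testBit 2) 3 15 |||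
    (am (n.testBit 3) 4 20 ||| (am (n.testBit 4) 7 11 ||| (am (n.testBit 5) 8 16 |||
    (am (n.testBit 6) 9 21 ||| (am (n.testBit 7) 13 17 ||| am (n.testBit 8) 14 22)))))))

/-- tournament on five points -/
def mk10 (n : ℕ) : ℕ := mk9 n ||| am (n.testBit 9) 19 23

/-- digit -/
def dg (code i : ℕ) : ℕ := code / 10 ^ i % 10

/-- the digits are a permutation -/
def inj5 (code : ℕ) : Bool :=
  Nat.beq (2 ^ dg code 0 ||| (2 ^ dg code 1 ||| (2 ^ dg code 2 ||| (2 ^ dg code 3 |||
    2 ^ dg code 4)))) 31

/-- comparison of digraphs -/
def le5 (R O code : ℕ) : Bool :=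
  (List.range 5).all fun i => (List.range 5).all fun j =>
    !(R.testBit (5 * i + j)) || O.testBit (5 * dg code i + dg code j)

/-- check of one entry -/
def chk (reps : List ℕ) (O code : ℕ) : Bool :=
  Nat.blt (code / 100000) reps.length && (inj5 code && le5 (reps.getD (code / 100000) 0) O code)

theorem checks10 : ((List.range 1024).zip tab10).all (fun x => chk reps10 (mk10 x.1) x.2) =
    true := by decide +kernel

theorem checks9 : ((List.range 512).zip tab9).all (fun x => chk reps9 (mk9 x.1) x.2) =
    true := by decide +kernel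

theorem len10 : tab10.length = 1024 := by decide +kernel

theorem len9 : tab9.length = 512 := by decide +kernel

theorem entry {N : ℕ} {tab reps : List ℕ} {mk : ℕ → ℕ} (hl : tab.length = N)
    (h : ((List.range N).zip tab).all (fun x => chk reps (mk x.1) x.2) = true) {n : ℕ}
    (hn : n < N) : ∃ code, chk reps (mk n) code = true := by
  rw [List.all_eq_true] at h
  refine ⟨tab[n]'(by omega), ?_⟩
  refine h (n, tab[n]'(by omega)) ?_
  rw [List.mem_iff_getElem]
  refine ⟨n, by simp [hl, hn], ?_⟩
  simp

/-- meaning of a check -/
theorem chk_spec {reps : List ℕ} {O code : ℕ} (h : chk reps O code = true) :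
    ∃ R ∈ reps, ∃ f : Fin 5 ≃ Fin 5, ∀ i j : Fin 5, R.testBit (5 * i.val + j.val) = true →
      O.testBit (5 * (f i).val + (f j).val) = true := by
  unfold chk at h
  rw [Bool.and_eq_true, Bool.and_eq_true] at h
  obtain ⟨h1, h2, h3⟩ := h
  have h1' : code / 100000 < reps.length := Nat.le_of_ble_eq_true h1
  unfold inj5 at h2
  have h2' := Nat.eq_of_beq_eq_true h2
  have hd : ∀ i : Fin 5, ∃ j : Fin 5, dg code j.val = i.val := by
    intro i
    have h4 : (31 : ℕ).testBit i.val = true := by
      revert i; decide
    rw [← h2'] at h4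
    simp only [Nat.testBit_or, Bool.or_eq_true, Nat.testBit_two_pow, decide_eq_true_eq] at h4
    rcases h4 with h4 | h4 | h4 | h4 | h4
    · exact ⟨0, h4⟩
    · exact ⟨1, h4⟩
    · exact ⟨2, h4⟩
    · exact ⟨3, h4⟩
    · exact ⟨4, h4⟩
  choose g hg using hd
  have hginj : Function.Injective g := by
    intro a b hab
    have := hg a
    rw [hab, hg b] at this
    exact Fin.ext this.symm
  have hgbij : Function.Bijective g := Finite.injective_iff_bijective.mp hginj
  let e := Equiv.ofBijective g hgbij
  have hf : ∀ j : Fin 5, dg code j.val = (e.symm j).val := by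
    intro j
    have := hg (e.symm j)
    have h5 : g (e.symm j) = j := e.apply_symm_apply j
    rw [h5] at this
    exact this
  refine ⟨reps.getD (code / 100000) 0, ?_, e.symm, ?_⟩
  · rw [List.getD_eq_getElem _ _ h1']
    exact List.getElem_mem h1'
  · intro i j hR
    unfold le5 at h3
    rw [List.all_eq_true] at h3
    have h6 := h3 i.val (List.mem_range.mpr i.isLt)
    rw [List.all_eq_true] at h6
    have h7 := h6 j.val (List.mem_range.mpr j.isLt)
    rw [hR] at h7
    simp only [Bool.not_true, Bool.false_or] at h7
    rw [hf, hf] at h7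
    exact h7

variable {e : P 5 → P 5 → P 5 → Prop} {o : Fin 5 → Fin 5 → Prop}

/-- the branch and bound result for a digraph -/
theorem of_rep (h : Lift 5 e o) {reps : List ℕ} {need : ℕ} (hr : ∀ R ∈ reps, run R need = true)
    {O : ℕ} (hO : ∀ i j : Fin 5, O.testBit (5 * i.val + j.val) = true → o i j)
    {code : ℕ} (hc : chk reps O code = true) : NN e + need ≤ 40 := by
  obtain ⟨R, hR, f, hf⟩ := chk_spec hc
  have h1 := h.comp f f.injective
  have h2 := run_sound (hr R hR) _ (clauses_hit h1 R (fun i j hij => hO _ _ (hf i j hij)))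
  have h3 := card_TS (e := fun p q r : P 5 => e (f p.1, p.2) (f q.1, q.2) (f r.1, r.2))
  rw [h.NN_comp f] at h3
  omega

/-- always -/
theorem NN_le (h : Lift 5 e o) : NN e ≤ 28 := by
  have h2 := run_sound run0 _ (clauses_hit h 0 (fun i j hij => by simp at hij))
  have h3 := card_TS (e := e)
  omega

/-- the pairs -/
def prs : Fin 10 → Fin 5 × Fin 5 :=
  ![(0, 1), (0, 2), (0, 3), (0, 4), (1, 2), (1, 3), (1, 4), (2, 3), (2, 4), (3, 4)]

open Classical in
/-- all pairs joined -/
theorem NN_tour (h : Lift 5 e o) (ho : ∀ i j, i ≠ j → o i j ∨ o j i) : NN e ≤ 25 := by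
  set n := Nat.ofBits (fun t : Fin 10 => decide (o (prs t).1 (prs t).2)) with hn
  have hlt : n < 1024 := by
    have := Nat.ofBits_lt_two_pow (fun t : Fin 10 => decide (o (prs t).1 (prs t).2))
    rw [hn]; exact this
  have hb : ∀ t : Fin 10, n.testBit t.val = decide (o (prs t).1 (prs t).2) := by
    intro t
    rw [hn]
    exact Nat.testBit_ofBits_lt _ _ t.isLt
  obtain ⟨code, hcode⟩ := entry len10 checks10 hlt
  have b0 := hb 0
  have b1 := hb 1
  have b2 := hb 2
  have b3 := hb 3
  have b4 := hb 4
  have b5 := hb 5
  have b6 := hb 6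
  have b7 := hb 7
  have b8 := hb 8
  have b9 := hb 9
  have key : NN e + 15 ≤ 40 := by
    refine of_rep h runs10 (O := mk10 n) ?_ hcode
    intro i j hij
    unfold mk10 mk9 at hij
    have c01 := ho 0 1 (by decide)
    have c02 := ho 0 2 (by decide)
    have c03 := ho 0 3 (by decide)
    have c04 := ho 0 4 (by decide)
    have c12 := ho 1 2 (by decide)
    have c13 := ho 1 3 (by decide)
    have c14 := ho 1 4 (by decide)
    have c23 := ho 2 3 (by decide)
    have c24 := ho 2 4 (by decide)
    have c34 := ho 3 4 (by decide)
    simp only [Nat.testBit_or, Bool.or_eq_true, testBit_am] at hij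
    change n.testBit 0 = decide (o 0 1) at b0
    change n.testBit 1 = decide (o 0 2) at b1
    change n.testBit 2 = decide (o 0 3) at b2
    change n.testBit 3 = decide (o 0 4) at b3
    change n.testBit 4 = decide (o 1 2) at b4
    change n.testBit 5 = decide (o 1 3) at b5
    change n.testBit 6 = decide (o 1 4) at b6
    change n.testBit 7 = decide (o 2 3) at b7
    change n.testBit 8 = decide (o 2 4) at b8
    change n.testBit 9 = decide (o 3 4) at b9
    rw [b0, b1, b2, b3, b4, b5, b6, b7, b8, b9] at hij
    simp only [decide_eq_true_eq, decide_eq_false_iff_not] at hij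
    fin_cases i <;> fin_cases j <;> simp at hij <;>
      first
        | exact hij
        | exact c01.resolve_left hij
        | exact c02.resolve_left hij
        | exact c03.resolve_left hij
        | exact c04.resolve_left hij
        | exact c12.resolve_left hij
        | exact c13.resolve_left hij
        | exact c14.resolve_left hij
        | exact c23.resolve_left hij
        | exact c24.resolve_left hij
        | exact c34.resolve_left hij
  omega

open Classical in
/-- one pair not joined -/
theorem NN_tour9' (h : Lift 5 e o) (ho : ∀ i j, i ≠ j → ¬ (i = 3 ∧ j = 4) → ¬ (i = 4 ∧ j = 3) →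
    o i j ∨ o j i) : NN e ≤ 27 := by
  set n := Nat.ofBits (fun t : Fin 9 => decide (o (prs t.castSucc).1 (prs t.castSucc).2)) with hn
  have hlt : n < 512 := by
    have := Nat.ofBits_lt_two_pow (fun t : Fin 9 => decide (o (prs t.castSucc).1 (prs t.castSucc).2))
    rw [hn]; exact this
  have hb : ∀ t : Fin 9, n.testBit t.val = decide (o (prs t.castSucc).1 (prs t.castSucc).2) := by
    intro t
    rw [hn]
    exact Nat.testBit_ofBits_lt _ _ t.isLt
  obtain ⟨code, hcode⟩ := entry len9 checks9 hlt
  have b0 := hb 0
  have b1 := hb 1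
  have b2 := hb 2
  have b3 := hb 3
  have b4 := hb 4
  have b5 := hb 5
  have b6 := hb 6
  have b7 := hb 7
  have b8 := hb 8
  have key : NN e + 13 ≤ 40 := by
    refine of_rep h runs9 (O := mk9 n) ?_ hcode
    intro i j hij
    unfold mk9 at hij
    have c01 := ho 0 1 (by decide) (by decide) (by decide)
    have c02 := ho 0 2 (by decide) (by decide) (by decide)
    have c03 := ho 0 3 (by decide) (by decide) (by decide)
    have c04 := ho 0 4 (by decide) (by decide) (by decide)
    have c12 := ho 1 2 (by decide) (by decide) (by decide)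
    have c13 := ho 1 3 (by decide) (by decide) (by decide)
    have c14 := ho 1 4 (by decide) (by decide) (by decide)
    have c23 := ho 2 3 (by decide) (by decide) (by decide)
    have c24 := ho 2 4 (by decide) (by decide) (by decide)
    simp only [Nat.testBit_or, Bool.or_eq_true, testBit_am] at hij
    change n.testBit 0 = decide (o 0 1) at b0
    change n.testBit 1 = decide (o 0 2) at b1
    change n.testBit 2 = decide (o 0 3) at b2
    change n.testBit 3 = decide (o 0 4) at b3
    change n.testBit 4 = decide (o 1 2) at b4
    change n.testBit 5 = decide (o 1 3) at b5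
    change n.testBit 6 = decide (o 1 4) at b6
    change n.testBit 7 = decide (o 2 3) at b7
    change n.testBit 8 = decide (o 2 4) at b8
    rw [b0, b1, b2, b3, b4, b5, b6, b7, b8] at hij
    simp only [decide_eq_true_eq, decide_eq_false_iff_not] at hij
    fin_cases i <;> fin_cases j <;> simp at hij <;>
      first
        | exact hij
        | exact c01.resolve_left hij
        | exact c02.resolve_left hij
        | exact c03.resolve_left hij
        | exact c04.resolve_left hij
        | exact c12.resolve_left hij
        | exact c13.resolve_left hij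
        | exact c14.resolve_left hij
        | exact c23.resolve_left hij
        | exact c24.resolve_left hij
  omega

end Pool.Agent.W286.O6
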