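import Pool.Agent.W286.O6.BB
import Pool.Agent.W286.O6.Tab

/-!
The branch and bound runs.
-/

namespace Pool.Agent.W286.O6

/-- evaluate the members of a list -/
def norm : List ℕ → List ℕ → (List ℕ → Bool) → Bool
  | [], acc, k => k acc
  | c :: l, acc, k => frc c fun d => norm l (d :: acc) k

theorem norm_eq : ∀ (cs acc : List ℕ) (k : List ℕ → Bool), norm cs acc k = k (cs.reverse ++ acc)
  | [], acc, k => rfl
  | c :: l, acc, k => by
    unfold norm
    rw [frc_eq, norm_eq l (c :: acc) k]
    simp

/-- the clauses for a digraph given by a mask -/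
def clauses (R : ℕ) : List ℕ :=
  quadsN ++ (pairsN.filter (fun x => R.testBit (5 * x.1 + x.2.1) &&
    R.testBit (5 * x.1 + x.2.2.1))).map (fun x => x.2.2.2)

/-- run for one digraph -/
def run (R need : ℕ) : Bool := norm (clauses R) [] fun l => bb 60 l need

theorem run_sound {R need : ℕ} (h : run R need = true) (t : Finset ℕ)
    (ht : ∀ c ∈ clauses R, Hit t c) : need ≤ t.card := by
  unfold run at h
  rw [norm_eq] at h
  refine bb_sound 60 _ need t ?_ h
  intro c hc
  rw [List.append_nil, List.mem_reverse] at hc
  exact ht c hc

theorem run0 : run 0 12 = true := by decide +kernel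

theorem runs10 : ∀ R ∈ reps10, run R 15 = true := by
  have h : (reps10.all fun R => run R 15) = true := by decide +kernel
  exact List.all_eq_true.mp h

theorem runs9 : ∀ R ∈ reps9, run R 13 = true := by
  have h : (reps9.all fun R => run R 13) = true := by decide +kernel
  exact List.all_eq_true.mp h

end Pool.Agent.W286.O6
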