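import Pool.Agent.W286.O6.Run

/-!
Five points with signs: the meaning of the clauses.
-/

namespace Pool.Agent.W286.O6

/-- signed points -/
abbrev P (m : ℕ) := Fin m × Bool

/-- the other sign -/
def fl {m : ℕ} (p : P m) : P m := (p.1, !p.2)

/-- The relation `e` on signed points is symmetric, invariant under the change of all signs and
contains no complete four-point set; `o` is the digraph of the edges through both signs of a
point. -/
structure Lift (m : ℕ) (e : P m → P m → P m → Prop) (o : Fin m → Fin m → Prop) : Prop where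
  s12 : ∀ p q r, e p q r → e q p r
  s23 : ∀ p q r, e p q r → e p r q
  flp : ∀ p q r, e p q r → e (fl p) (fl q) (fl r)
  quad : ∀ p q r s : P m, p.1 ≠ q.1 → p.1 ≠ r.1 → p.1 ≠ s.1 → q.1 ≠ r.1 → q.1 ≠ s.1 → r.1 ≠ s.1 →
    ¬ (e p q r ∧ e p q s ∧ e p r s ∧ e q r s)
  pair : ∀ (i : Fin m) (q r : P m), i ≠ q.1 → i ≠ r.1 → q.1 ≠ r.1 → o i q.1 → o i r.1 →
    ¬ (e (i, false) q r ∧ e (i, true) q r)
  anti : ∀ i j, i ≠ j → ¬ (o i j ∧ o j i)

/-- relabelling -/
theorem Lift.comp {m m' : ℕ} {e : P m → P m → P m → Prop} {o : Fin m → Fin m → Prop}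
    (h : Lift m e o) (f : Fin m' → Fin m) (hf : Function.Injective f) :
    Lift m' (fun p q r => e (f p.1, p.2) (f q.1, q.2) (f r.1, r.2)) (fun i j => o (f i) (f j)) where
  s12 _ _ _ h1 := h.s12 _ _ _ h1
  s23 _ _ _ h1 := h.s23 _ _ _ h1
  flp _ _ _ h1 := h.flp _ _ _ h1
  quad _ _ _ _ h1 h2 h3 h4 h5 h6 := h.quad _ _ _ _ (fun t => h1 (hf t)) (fun t => h2 (hf t))
    (fun t => h3 (hf t)) (fun t => h4 (hf t)) (fun t => h5 (hf t)) (fun t => h6 (hf t))
  pair _ _ _ h1 h2 h3 h4 h5 := h.pair _ _ _ (fun t => h1 (hf t)) (fun t => h2 (hf t))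
    (fun t => h3 (hf t)) h4 h5
  anti _ _ h1 := h.anti _ _ (fun t => h1 (hf t))

/-- number of the triple `i < j < k` -/
def idx (i j k : ℕ) : ℕ :=
  (if i = 0 then (if j = 1 then 0 else if j = 2 then 3 else 5)
    else if i = 1 then (if j = 2 then 6 else 8) else 9) + (k - j - 1)

/-- number of a sorted triple of signed points -/
def vs (p q r : P 5) : ℕ :=
  4 * idx p.1.val q.1.val r.1.val + 2 * (xor p.2 q.2).toNat + (xor p.2 r.2).toNat

/-- number of a triple of signed points -/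
def vx (p q r : P 5) : ℕ :=
  if p.1 < q.1 then (if q.1 < r.1 then vs p q r else if p.1 < r.1 then vs p r q else vs r p q)
  else (if p.1 < r.1 then vs q p r else if q.1 < r.1 then vs q r p else vs r q p)

/-- the triples `i < j < k` -/
def tr5 : List (Fin 5 × Fin 5 × Fin 5) :=
  [(0, 1, 2), (0, 1, 3), (0, 1, 4), (0, 2, 3), (0, 2, 4), (0, 3, 4), (1, 2, 3), (1, 2, 4),
    (1, 3, 4), (2, 3, 4)]

/-- the triple with a given number -/
def dec5 (n : ℕ) : P 5 × P 5 × P 5 :=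
  let t := tr5.getD (n / 4) (0, 1, 2)
  ((t.1, false), (t.2.1, n / 2 % 2 == 1), (t.2.2, n % 2 == 1))

/-- permutation of a triple -/
def Pm {α : Type} [DecidableEq α] (x : α × α × α) (p q r : α) : Bool :=
  x == (p, q, r) || x == (p, r, q) || x == (q, p, r) || x == (q, r, p) || x == (r, p, q) ||
    x == (r, q, p)

theorem vx_spec : ∀ p q r : P 5, p.1 ≠ q.1 → p.1 ≠ r.1 → q.1 ≠ r.1 →
    vx p q r < 40 ∧ (Pm (dec5 (vx p q r)) p q r || Pm (dec5 (vx p q r)) (fl p) (fl q) (fl r)) =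
      true := by
  decide +kernel

section
variable {e : P 5 → P 5 → P 5 → Prop} {o : Fin 5 → Fin 5 → Prop}

theorem Lift.perm {m : ℕ} {e : P m → P m → P m → Prop} {o : Fin m → Fin m → Prop}
    (h : Lift m e o) {x : P m × P m × P m} {p q r : P m} (hx : Pm x p q r = true) :
    e x.1 x.2.1 x.2.2 ↔ e p q r := by
  have a : ∀ p q r, e p q r ↔ e q p r := fun p q r => ⟨h.s12 p q r, h.s12 q p r⟩
  have b : ∀ p q r, e p q r ↔ e p r q := fun p q r => ⟨h.s23 p q r, h.s23 p r q⟩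
  unfold Pm at hx
  simp only [Bool.or_eq_true, beq_iff_eq] at hx
  rcases hx with ((((rfl | rfl) | rfl) | rfl) | rfl) | rfl
  · exact Iff.rfl
  · exact b _ _ _
  · exact a _ _ _
  · exact (b _ _ _).trans (a _ _ _)
  · exact (a _ _ _).trans (b _ _ _)
  · exact ((a _ _ _).trans (b _ _ _)).trans (a _ _ _)

theorem Lift.flip_iff {m : ℕ} {e : P m → P m → P m → Prop} {o : Fin m → Fin m → Prop}
    (h : Lift m e o) (p q r : P m) : e (fl p) (fl q) (fl r) ↔ e p q r := by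
  refine ⟨fun h1 => ?_, h.flp p q r⟩
  have := h.flp _ _ _ h1
  simpa [fl] using this

open Classical in
/-- the triples which are not in `e` -/
noncomputable def TS (e : P 5 → P 5 → P 5 → Prop) : Finset ℕ :=
  (Finset.range 40).filter fun n => ¬ e (dec5 n).1 (dec5 n).2.1 (dec5 n).2.2

open Classical in
theorem mem_TS (h : Lift 5 e o) (p q r : P 5) (h1 : p.1 ≠ q.1) (h2 : p.1 ≠ r.1)
    (h3 : q.1 ≠ r.1) : vx p q r ∈ TS e ↔ ¬ e p q r := by
  obtain ⟨h4, h5⟩ := vx_spec p q r h1 h2 h3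
  unfold TS
  rw [Finset.mem_filter, Finset.mem_range, and_iff_right h4, not_iff_not]
  rw [Bool.or_eq_true] at h5
  rcases h5 with h5 | h5
  · exact h.perm h5
  · exact (h.perm h5).trans (h.flip_iff p q r)

/-- the clause of a four-point set -/
def qc (x : P 5 × P 5 × P 5 × P 5) : ℕ :=
  2 ^ vx x.1 x.2.1 x.2.2.1 ||| (2 ^ vx x.1 x.2.1 x.2.2.2 ||| (2 ^ vx x.1 x.2.2.1 x.2.2.2 |||
    2 ^ vx x.2.1 x.2.2.1 x.2.2.2))

/-- four-point sets -/
def quadT : List (P 5 × P 5 × P 5 × P 5) :=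
  [((0 : Fin 5), (1 : Fin 5), (2 : Fin 5), (3 : Fin 5)), (0, 1, 2, 4), (0, 1, 3, 4), (0, 2, 3, 4),
    (1, 2, 3, 4)].flatMap fun y => [(false, false, false), (false, false, true),
    (false, true, false), (false, true, true), (true, false, false), (true, false, true),
    (true, true, false), (true, true, true)].map fun z =>
      ((y.1, false), (y.2.1, z.1), (y.2.2.1, z.2.1), (y.2.2.2, z.2.2))

theorem quadT_eq : quadT.map qc = quadsN := by decide +kernel

theorem quadT_dist : ∀ x ∈ quadT, x.1.1 ≠ x.2.1.1 ∧ x.1.1 ≠ x.2.2.1.1 ∧ x.1.1 ≠ x.2.2.2.1 ∧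
    x.2.1.1 ≠ x.2.2.1.1 ∧ x.2.1.1 ≠ x.2.2.2.1 ∧ x.2.2.1.1 ≠ x.2.2.2.1 := by decide +kernel

/-- the clause of a pair of arcs -/
def pc (x : Fin 5 × Fin 5 × Fin 5 × Bool) : ℕ × ℕ × ℕ × ℕ :=
  (x.1.val, x.2.1.val, x.2.2.1.val, 2 * TT + (2 ^ vx (x.1, false) (x.2.1, false) (x.2.2.1, x.2.2.2) |||
    2 ^ vx (x.1, true) (x.2.1, false) (x.2.2.1, x.2.2.2)))

/-- pairs of arcs -/
def pairT : List (Fin 5 × Fin 5 × Fin 5 × Bool) :=
  (List.finRange 5).flatMap fun i => (List.finRange 5).flatMap fun j =>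
    (List.finRange 5).flatMap fun k =>
      if i ≠ j ∧ i ≠ k ∧ j < k then [(i, j, k, false), (i, j, k, true)] else []

theorem pairT_eq : pairT.map pc = pairsN := by decide +kernel

theorem pairT_dist : ∀ x ∈ pairT, x.1 ≠ x.2.1 ∧ x.1 ≠ x.2.2.1 ∧ x.2.1 ≠ x.2.2.1 := by
  decide +kernel

theorem hit_or {t : Finset ℕ} {a b : ℕ} (h : Hit t a ∨ Hit t b) : Hit t (a ||| b) := by
  rcases h with ⟨i, h1, h2, h3⟩ | ⟨i, h1, h2, h3⟩
  · exact ⟨i, h1, h2, by rw [Nat.testBit_or, h3, Bool.true_or]⟩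
  · exact ⟨i, h1, h2, by rw [Nat.testBit_or, h3, Bool.or_true]⟩

theorem hit_two {t : Finset ℕ} {a : ℕ} (h : a ∈ t) (h2 : a < 64) : Hit t (2 ^ a) :=
  ⟨a, h, h2, Nat.testBit_two_pow_self⟩

theorem hit_add {t : Finset ℕ} {a : ℕ} (h : Hit t a) : Hit t (2 * TT + a) := by
  obtain ⟨i, h1, h2, h3⟩ := h
  refine ⟨i, h1, h2, ?_⟩
  have hT : TT = 2 ^ 64 := by unfold TT; norm_num
  rw [two_mul, add_assoc, hT, Nat.testBit_two_pow_add_gt h2, Nat.testBit_two_pow_add_gt h2, h3]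

theorem quad_hit (h : Lift 5 e o) : ∀ c ∈ quadsN, Hit (TS e) c := by
  intro c hc
  rw [← quadT_eq, List.mem_map] at hc
  obtain ⟨⟨p, q, r, s⟩, hx, rfl⟩ := hc
  obtain ⟨h1, h2, h3, h4, h5, h6⟩ := quadT_dist _ hx
  simp only at h1 h2 h3 h4 h5 h6
  have key := h.quad p q r s h1 h2 h3 h4 h5 h6
  have aux : ∀ p q r : P 5, p.1 ≠ q.1 → p.1 ≠ r.1 → q.1 ≠ r.1 → ¬ e p q r →
      Hit (TS e) (2 ^ vx p q r) := by
    intro p q r a b c d
    exact hit_two ((mem_TS h p q r a b c).mpr d) ((vx_spec p q r a b c).1.trans (by norm_num))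
  unfold qc
  simp only
  by_cases k1 : e p q r
  · by_cases k2 : e p q s
    · by_cases k3 : e p r s
      · by_cases k4 : e q r s
        · exact absurd ⟨k1, k2, k3, k4⟩ key
        · exact hit_or (Or.inr (hit_or (Or.inr (hit_or (Or.inr (aux q r s h4 h5 h6 k4))))))
      · exact hit_or (Or.inr (hit_or (Or.inr (hit_or (Or.inl (aux p r s h2 h3 h6 k3))))))
    · exact hit_or (Or.inr (hit_or (Or.inl (aux p q s h1 h3 h5 k2))))
  · exact hit_or (Or.inl (aux p q r h1 h2 h4 k1))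

theorem clauses_hit (h : Lift 5 e o) (R : ℕ)
    (hR : ∀ i j : Fin 5, R.testBit (5 * i.val + j.val) = true → o i j) :
    ∀ c ∈ clauses R, Hit (TS e) c := by
  intro c hc
  unfold clauses at hc
  rw [List.mem_append] at hc
  rcases hc with hc | hc
  · exact quad_hit h c hc
  · rw [List.mem_map] at hc
    obtain ⟨x, hx, rfl⟩ := hc
    rw [List.mem_filter, ← pairT_eq, List.mem_map] at hx
    obtain ⟨⟨y, hy, rfl⟩, hb⟩ := hx
    obtain ⟨h1, h2, h3⟩ := pairT_dist y hy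
    obtain ⟨i, j, k, b⟩ := y
    simp only at h1 h2 h3
    unfold pc at hb ⊢
    simp only [Bool.and_eq_true] at hb ⊢
    have o1 := hR i j hb.1
    have o2 := hR i k hb.2
    have key := h.pair i (j, false) (k, b) h1 h2 h3 o1 o2
    apply hit_add
    apply hit_or
    by_cases k1 : e (i, false) (j, false) (k, b)
    · right
      have k2 : ¬ e (i, true) (j, false) (k, b) := fun k2 => key ⟨k1, k2⟩
      exact hit_two ((mem_TS h _ _ _ h1 h2 h3).mpr k2)
        ((vx_spec (i, true) (j, false) (k, b) h1 h2 h3).1.trans (by norm_num))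
    · left
      exact hit_two ((mem_TS h _ _ _ h1 h2 h3).mpr k1)
        ((vx_spec (i, false) (j, false) (k, b) h1 h2 h3).1.trans (by norm_num))

end

end Pool.Agent.W286.O6
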