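import Pool.Agent.W286.O6.Five

/-!
The inequalities for five and six orbits.
-/

namespace Pool.Agent.W286.O6

open Finset

section arcs

variable {m : ℕ}

open Classical in
/-- number of arcs -/
noncomputable def AA (o : Fin m → Fin m → Prop) : ℕ :=
  ∑ i, ∑ j, if i ≠ j ∧ o i j then 1 else 0

open Classical in
/-- pairs without arc -/
noncomputable def un (o : Fin m → Fin m → Prop) : Finset (Fin m × Fin m) :=
  univ.filter fun p => p.1 ≠ p.2 ∧ ¬ o p.1 p.2 ∧ ¬ o p.2 p.1

open Classical in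
theorem AA_un {e : P m → P m → P m → Prop} {o : Fin m → Fin m → Prop} (h : Lift m e o) :
    2 * AA o + (un o).card ≤ m * m - m := by
  have h1 : AA o = ∑ i, ∑ j, if i ≠ j ∧ o j i then 1 else 0 := by
    unfold AA
    rw [Finset.sum_comm]
    refine Finset.sum_congr rfl fun i _ => Finset.sum_congr rfl fun j _ => ?_
    refine if_congr ⟨fun h => ⟨h.1.symm, h.2⟩, fun h => ⟨h.1.symm, h.2⟩⟩ rfl rfl
  have h2 : (un o).card = ∑ i, ∑ j, if i ≠ j ∧ ¬ o i j ∧ ¬ o j i then 1 else 0 := by
    unfold un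
    rw [Finset.card_filter, Fintype.sum_prod_type]
  have h3 : (∑ i : Fin m, ∑ j : Fin m, if i ≠ j then 1 else 0) = m * m - m := by
    have : ∀ i : Fin m, (∑ j : Fin m, if i ≠ j then 1 else 0) = m - 1 := by
      intro i
      rw [← Finset.card_filter, Finset.filter_ne, Finset.card_erase_of_mem (Finset.mem_univ _),
        Finset.card_univ, Fintype.card_fin]
    rw [Finset.sum_congr rfl fun i _ => this i, Finset.sum_const, Finset.card_univ,
      Fintype.card_fin, smul_eq_mul, Nat.mul_sub, mul_one]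
  rw [two_mul]
  nth_rw 2 [h1]
  rw [h2, ← h3]
  unfold AA
  rw [← Finset.sum_add_distrib, ← Finset.sum_add_distrib]
  refine Finset.sum_le_sum fun i _ => ?_
  rw [← Finset.sum_add_distrib, ← Finset.sum_add_distrib]
  refine Finset.sum_le_sum fun j _ => ?_
  by_cases hij : i = j
  · simp [hij]
  · have := h.anti i j hij
    by_cases p : o i j <;> by_cases q : o j i <;> simp_all

end arcs

/-- one pair not joined, any position -/
theorem NN_tour9 {e : P 5 → P 5 → P 5 → Prop} {o : Fin 5 → Fin 5 → Prop} (h : Lift 5 e o)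
    {a b : Fin 5} (hab : a ≠ b) (ho : ∀ i j, i ≠ j → ¬ (i = a ∧ j = b) → ¬ (i = b ∧ j = a) →
    o i j ∨ o j i) : NN e ≤ 27 := by
  have hp : ∀ a b : Fin 5, a ≠ b → ∃ f : Equiv.Perm (Fin 5), f 3 = a ∧ f 4 = b := by
    decide +kernel
  obtain ⟨f, h3, h4⟩ := hp a b hab
  have h5 := NN_tour9' (h.comp f f.injective) (by
    intro i j hij h1 h2
    refine ho _ _ (fun t => hij (f.injective t)) ?_ ?_
    · rintro ⟨p, q⟩
      rw [← h3] at p
      rw [← h4] at q
      exact h1 ⟨f.injective p, f.injective q⟩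
    · rintro ⟨p, q⟩
      rw [← h4] at p
      rw [← h3] at q
      exact h2 ⟨f.injective p, f.injective q⟩)
  rw [h.NN_comp f] at h5
  exact h5

/-- five orbits -/
theorem five {e : P 5 → P 5 → P 5 → Prop} {o : Fin 5 → Fin 5 → Prop} (h : Lift 5 e o) :
    AA o ≤ 10 ∧ 2 * AA o + NN e ≤ 45 ∧ AA o + NN e ≤ 36 ∧ NN e ≤ 28 := by
  classical
  have hA := AA_un h
  have hN := NN_le h
  by_cases h1 : ∀ i j, i ≠ j → o i j ∨ o j i
  · have := NN_tour h h1
    omega
  · push Not at h1
    obtain ⟨a, b, hab, p, q⟩ := h1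
    have m1 : (a, b) ∈ un o := by
      unfold un; exact Finset.mem_filter.mpr ⟨Finset.mem_univ _, hab, p, q⟩
    have m2 : (b, a) ∈ un o := by
      unfold un; exact Finset.mem_filter.mpr ⟨Finset.mem_univ _, hab.symm, q, p⟩
    by_cases h2 : ∀ i j, i ≠ j → ¬ (i = a ∧ j = b) → ¬ (i = b ∧ j = a) → o i j ∨ o j i
    · have := NN_tour9 h hab h2
      have hc : ({(a, b), (b, a)} : Finset (Fin 5 × Fin 5)) ⊆ un o := by
        intro x hx
        rw [Finset.mem_insert, Finset.mem_singleton] at hx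
        rcases hx with rfl | rfl
        · exact m1
        · exact m2
      have hc2 := Finset.card_le_card hc
      rw [Finset.card_pair (by intro h; exact hab (Prod.ext_iff.mp h).1)] at hc2
      omega
    · push Not at h2
      obtain ⟨c, d, hcd, u, w, r, s⟩ := h2
      have m3 : (c, d) ∈ un o := by
        unfold un; exact Finset.mem_filter.mpr ⟨Finset.mem_univ _, hcd, r, s⟩
      have m4 : (d, c) ∈ un o := by
        unfold un; exact Finset.mem_filter.mpr ⟨Finset.mem_univ _, hcd.symm, s, r⟩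
      have hc : ({(a, b), (b, a), (c, d), (d, c)} : Finset (Fin 5 × Fin 5)) ⊆ un o := by
        intro x hx
        rw [Finset.mem_insert, Finset.mem_insert, Finset.mem_insert, Finset.mem_singleton] at hx
        rcases hx with rfl | rfl | rfl | rfl
        · exact m1
        · exact m2
        · exact m3
        · exact m4
      have hc2 := Finset.card_le_card hc
      rw [Finset.card_insert_of_notMem, Finset.card_insert_of_notMem, Finset.card_pair] at hc2
      · omega
      · intro h; exact hcd (Prod.ext_iff.mp h).1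
      · simp only [Finset.mem_insert, Finset.mem_singleton, Prod.mk.injEq, not_or, not_and]
        exact ⟨fun h1 h2 => w h1.symm h2.symm, fun h1 h2 => u h2.symm h1.symm⟩
      · simp only [Finset.mem_insert, Finset.mem_singleton, Prod.mk.injEq, not_or, not_and]
        exact ⟨fun h1 => absurd h1 hab, fun h1 h2 => u h1.symm h2.symm,
          fun h1 h2 => w h2.symm h1.symm⟩

section six

theorem sum_sA (v : Fin 6) (F : Fin 6 → ℕ) :
    ∑ i : Fin 5, F (v.succAbove i) = ∑ j : Fin 6, if j ≠ v then F j else 0 := by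
  rw [Fin.sum_univ_succAbove (fun j => if j ≠ v then F j else 0) v]
  simp only [ne_eq, not_true_eq_false, if_false, zero_add]
  refine Finset.sum_congr rfl fun i _ => ?_
  rw [if_pos (Fin.succAbove_ne v i)]

theorem three_left : ∀ i j k : Fin 6, i ≠ j → i ≠ k → j ≠ k →
    (∑ v : Fin 6, if i ≠ v ∧ j ≠ v ∧ k ≠ v then 1 else 0) = 3 := by decide +kernel

theorem two_left : ∀ i j : Fin 6, i ≠ j →
    (∑ v : Fin 6, if i ≠ v ∧ j ≠ v then 1 else 0) = 4 := by decide +kernel

/-- restriction of a symmetric sum over triples -/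
theorem sum_restrict (F : Fin 6 → Fin 6 → Fin 6 → ℕ)
    (h0 : ∀ i j k, ¬ (i ≠ j ∧ i ≠ k ∧ j ≠ k) → F i j k = 0) :
    ∑ v : Fin 6, ∑ i : Fin 5, ∑ j : Fin 5, ∑ k : Fin 5,
      F (v.succAbove i) (v.succAbove j) (v.succAbove k) = 3 * ∑ i, ∑ j, ∑ k, F i j k := by
  have h1 : ∀ v : Fin 6, ∑ i : Fin 5, ∑ j : Fin 5, ∑ k : Fin 5,
      F (v.succAbove i) (v.succAbove j) (v.succAbove k) =
      ∑ i, ∑ j, ∑ k, if i ≠ v ∧ j ≠ v ∧ k ≠ v then F i j k else 0 := by
    intro v
    rw [sum_sA v (fun i => ∑ j : Fin 5, ∑ k : Fin 5, F i (v.succAbove j) (v.succAbove k))]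
    refine Finset.sum_congr rfl fun i _ => ?_
    by_cases hi : i ≠ v
    · rw [if_pos hi, sum_sA v (fun j => ∑ k : Fin 5, F i j (v.succAbove k))]
      refine Finset.sum_congr rfl fun j _ => ?_
      by_cases hj : j ≠ v
      · rw [if_pos hj, sum_sA v (fun k => F i j k)]
        refine Finset.sum_congr rfl fun k _ => ?_
        by_cases hk : k ≠ v
        · rw [if_pos hk, if_pos ⟨hi, hj, hk⟩]
        · rw [if_neg hk, if_neg (fun h => hk h.2.2)]
      · rw [if_neg hj]
        symm
        exact Finset.sum_eq_zero fun k _ => if_neg (fun h => hj h.2.1)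
    · rw [if_neg hi]
      symm
      exact Finset.sum_eq_zero fun j _ => Finset.sum_eq_zero fun k _ => if_neg (fun h => hi h.1)
  rw [Finset.sum_congr rfl fun v _ => h1 v, Finset.sum_comm, Finset.mul_sum]
  refine Finset.sum_congr rfl fun i _ => ?_
  rw [Finset.sum_comm, Finset.mul_sum]
  refine Finset.sum_congr rfl fun j _ => ?_
  rw [Finset.sum_comm, Finset.mul_sum]
  refine Finset.sum_congr rfl fun k _ => ?_
  by_cases hd : i ≠ j ∧ i ≠ k ∧ j ≠ k
  · have h2 : ∀ v : Fin 6, (if i ≠ v ∧ j ≠ v ∧ k ≠ v then F i j k else 0) =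
        (if i ≠ v ∧ j ≠ v ∧ k ≠ v then 1 else 0) * F i j k := by
      intro v; split_ifs <;> simp
    rw [Finset.sum_congr rfl fun v _ => h2 v, ← Finset.sum_mul,
      three_left i j k hd.1 hd.2.1 hd.2.2]
  · rw [h0 i j k hd]; simp

theorem sum_restrict2 (F : Fin 6 → Fin 6 → ℕ) (h0 : ∀ i j, ¬ (i ≠ j) → F i j = 0) :
    ∑ v : Fin 6, ∑ i : Fin 5, ∑ j : Fin 5, F (v.succAbove i) (v.succAbove j) =
      4 * ∑ i, ∑ j, F i j := by
  have h1 : ∀ v : Fin 6, ∑ i : Fin 5, ∑ j : Fin 5, F (v.succAbove i) (v.succAbove j) =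
      ∑ i, ∑ j, if i ≠ v ∧ j ≠ v then F i j else 0 := by
    intro v
    rw [sum_sA v (fun i => ∑ j : Fin 5, F i (v.succAbove j))]
    refine Finset.sum_congr rfl fun i _ => ?_
    by_cases hi : i ≠ v
    · rw [if_pos hi, sum_sA v (fun j => F i j)]
      refine Finset.sum_congr rfl fun j _ => ?_
      by_cases hj : j ≠ v
      · rw [if_pos hj, if_pos ⟨hi, hj⟩]
      · rw [if_neg hj, if_neg (fun h => hj h.2)]
    · rw [if_neg hi]
      symm
      exact Finset.sum_eq_zero fun j _ => if_neg (fun h => hi h.1)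
  rw [Finset.sum_congr rfl fun v _ => h1 v, Finset.sum_comm, Finset.mul_sum]
  refine Finset.sum_congr rfl fun i _ => ?_
  rw [Finset.sum_comm, Finset.mul_sum]
  refine Finset.sum_congr rfl fun j _ => ?_
  by_cases hd : i ≠ j
  · have h2 : ∀ v : Fin 6, (if i ≠ v ∧ j ≠ v then F i j else 0) =
        (if i ≠ v ∧ j ≠ v then 1 else 0) * F i j := by
      intro v; split_ifs <;> simp
    rw [Finset.sum_congr rfl fun v _ => h2 v, ← Finset.sum_mul, two_left i j hd]
  · rw [h0 i j hd]; simp

/-- six orbits -/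
theorem six {e : P 6 → P 6 → P 6 → Prop} {o : Fin 6 → Fin 6 → Prop} (h : Lift 6 e o) :
    2 * AA o + NN e ≤ 80 := by
  classical
  have hv := fun v : Fin 6 => five (h.comp v.succAbove Fin.succAbove_right_injective)
  have hS : ∑ v : Fin 6, SS (fun p q r : P 5 => e (v.succAbove p.1, p.2) (v.succAbove q.1, q.2)
      (v.succAbove r.1, r.2)) = 3 * SS e := by
    simp only [SS_eq_sum]
    rw [← sum_restrict (fun i j k => ∑ a : Bool, ∑ b : Bool, ∑ c : Bool, ie e (i, a) (j, b) (k, c))]
    · refine Finset.sum_congr rfl fun v _ => Finset.sum_congr rfl fun i _ =>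
        Finset.sum_congr rfl fun j _ => Finset.sum_congr rfl fun k _ =>
        Finset.sum_congr rfl fun a _ => Finset.sum_congr rfl fun b _ =>
        Finset.sum_congr rfl fun c _ => ?_
      refine ie_congr ?_
      simp only [ne_eq, Fin.succAbove_right_injective.eq_iff]
    · intro i j k hd
      refine Finset.sum_eq_zero fun a _ => Finset.sum_eq_zero fun b _ =>
        Finset.sum_eq_zero fun c _ => ?_
      unfold ie
      rw [if_neg (fun h => hd h.1)]
  have hS' : ∑ v : Fin 6, NN (fun p q r : P 5 => e (v.succAbove p.1, p.2) (v.succAbove q.1, q.2)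
      (v.succAbove r.1, r.2)) = 3 * NN e := by
    have h1 : ∑ v : Fin 6, SS (fun p q r : P 5 => e (v.succAbove p.1, p.2) (v.succAbove q.1, q.2)
      (v.succAbove r.1, r.2)) = ∑ v : Fin 6, 12 * NN (fun p q r : P 5 => e (v.succAbove p.1, p.2)
      (v.succAbove q.1, q.2) (v.succAbove r.1, r.2)) :=
      Finset.sum_congr rfl fun v _ => (h.comp v.succAbove Fin.succAbove_right_injective).SS_eq
    rw [← Finset.mul_sum, hS, h.SS_eq] at h1
    omega
  have hA : ∑ v : Fin 6, AA (fun i j : Fin 5 => o (v.succAbove i) (v.succAbove j)) =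
      4 * AA o := by
    unfold AA
    rw [← sum_restrict2 (fun i j => if i ≠ j ∧ o i j then 1 else 0)]
    · refine Finset.sum_congr rfl fun v _ => Finset.sum_congr rfl fun i _ =>
        Finset.sum_congr rfl fun j _ => ?_
      simp only [ne_eq, Fin.succAbove_right_injective.eq_iff]
    · intro i j hij
      rw [if_neg (fun h => hij h.1)]
  rw [Fin.sum_univ_six] at hS' hA
  have v0 := hv 0
  have v1 := hv 1
  have v2 := hv 2
  have v3 := hv 3
  have v4 := hv 4
  have v5 := hv 5
  omega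

end six

end Pool.Agent.W286.O6
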