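import Pool.Agent.W286.O6.Avg

/-!
Summation over the group and counting.
-/

namespace Pool.Agent.W286.O6

open Finset MulAction
open Pool.Agent.H422R3.T34 (K4Free Inv ind inv_triple six_card)
open Pool.Agent.H422R3.T4O (N N_comm12 N_comm23 N_same N_eq_P P_one total)

theorem ite_iff {p q : Prop} {_ : Decidable p} {_ : Decidable q} (h : p ↔ q) :
    (if p then (1 : ℕ) else 0) = if q then 1 else 0 := by
  by_cases hq : q
  · rw [if_pos hq, if_pos (h.mpr hq)]
  · rw [if_neg hq, if_neg (fun hp => hq (h.mp hp))]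

section trans

/-- a symmetric relation on triples without complete four-point set -/
structure Rel (m : ℕ) (R : Fin m → Fin m → Fin m → Prop) : Prop where
  s12 : ∀ i j k, R i j k → R j i k
  s23 : ∀ i j k, R i j k → R i k j
  quad : ∀ i j k l : Fin m, i ≠ j → i ≠ k → i ≠ l → j ≠ k → j ≠ l → k ≠ l →
    ¬ (R i j k ∧ R i j l ∧ R i k l ∧ R j k l)

open Classical in
/-- number of ordered triples -/
noncomputable def T3 {m : ℕ} (R : Fin m → Fin m → Fin m → Prop) : ℕ :=
  ∑ i, ∑ j, ∑ k, if (i ≠ j ∧ i ≠ k ∧ j ≠ k) ∧ R i j k then 1 else 0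

theorem T3_five {R : Fin 5 → Fin 5 → Fin 5 → Prop} (h : Rel 5 R) : T3 R ≤ 42 := by
  classical
  unfold T3
  rw [sum_sym]
  · have key : ∀ i j k : Fin 5, i < j ∧ j < k →
        (if (i ≠ j ∧ i ≠ k ∧ j ≠ k) ∧ R i j k then 1 else 0) = if R i j k then 1 else 0 := by
      rintro i j k ⟨p, q⟩
      refine if_congr ?_ rfl rfl
      rw [and_iff_right]
      exact ⟨p.ne, (p.trans q).ne, q.ne⟩
    have key2 : ∀ i j k : Fin 5, (if i < j ∧ j < k then
        (if (i ≠ j ∧ i ≠ k ∧ j ≠ k) ∧ R i j k then 1 else 0) else 0) =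
        if i < j ∧ j < k then (if R i j k then 1 else 0) else 0 := by
      intro i j k
      by_cases hc : i < j ∧ j < k
      · rw [if_pos hc, if_pos hc, key i j k hc]
      · rw [if_neg hc, if_neg hc]
    simp_rw [key2]
    simp only [Fin.sum_univ_five]
    simp (config := {decide := true}) only [if_true, if_false, add_zero, zero_add]
    have q1 := h.quad 0 1 2 3 (by decide) (by decide) (by decide) (by decide) (by decide) (by decide)
    have q2 := h.quad 0 1 2 4 (by decide) (by decide) (by decide) (by decide) (by decide) (by decide)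
    have q3 := h.quad 0 1 3 4 (by decide) (by decide) (by decide) (by decide) (by decide) (by decide)
    have q4 := h.quad 0 2 3 4 (by decide) (by decide) (by decide) (by decide) (by decide) (by decide)
    have q5 := h.quad 1 2 3 4 (by decide) (by decide) (by decide) (by decide) (by decide) (by decide)
    have g : ∀ a b c d : Prop, ¬ (a ∧ b ∧ c ∧ d) → (if a then 1 else 0) + (if b then 1 else 0) +
        (if c then 1 else 0) + (if d then 1 else 0) ≤ 3 := by
      intro a b c d hh
      by_cases ha : a <;> by_cases hb : b <;> by_cases hc : c <;> by_cases hd : d <;>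
        simp_all
    have g1 := g _ _ _ _ q1
    have g2 := g _ _ _ _ q2
    have g3 := g _ _ _ _ q3
    have g4 := g _ _ _ _ q4
    have g5 := g _ _ _ _ q5
    omega
  · intro i j k
    refine if_congr ?_ rfl rfl
    exact ⟨fun ⟨⟨a, b, c⟩, d⟩ => ⟨⟨a.symm, c, b⟩, h.s12 _ _ _ d⟩,
      fun ⟨⟨a, b, c⟩, d⟩ => ⟨⟨a.symm, c, b⟩, h.s12 _ _ _ d⟩⟩
  · intro i j k
    refine if_congr ?_ rfl rfl
    exact ⟨fun ⟨⟨a, b, c⟩, d⟩ => ⟨⟨b, a, c.symm⟩, h.s23 _ _ _ d⟩,
      fun ⟨⟨a, b, c⟩, d⟩ => ⟨⟨b, a, c.symm⟩, h.s23 _ _ _ d⟩⟩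
  · intro i j k hh
    rw [if_neg]
    rintro ⟨⟨a, b, c⟩, -⟩
    rcases hh with hh | hh | hh
    · exact a hh
    · exact b hh
    · exact c hh

theorem T3_six {R : Fin 6 → Fin 6 → Fin 6 → Prop} (h : Rel 6 R) : T3 R ≤ 84 := by
  classical
  have h1 : ∑ v : Fin 6, T3 (fun i j k : Fin 5 => R (v.succAbove i) (v.succAbove j)
      (v.succAbove k)) = 3 * T3 R := by
    unfold T3
    rw [← sum_restrict (fun i j k => if (i ≠ j ∧ i ≠ k ∧ j ≠ k) ∧ R i j k then 1 else 0)]
    · refine Finset.sum_congr rfl fun v _ => Finset.sum_congr rfl fun i _ =>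
        Finset.sum_congr rfl fun j _ => Finset.sum_congr rfl fun k _ => ?_
      simp only [ne_eq, Fin.succAbove_right_injective.eq_iff]
    · intro i j k hd
      rw [if_neg (fun h => hd h.1)]
  have h2 : ∀ v : Fin 6, T3 (fun i j k : Fin 5 => R (v.succAbove i) (v.succAbove j)
      (v.succAbove k)) ≤ 42 := by
    intro v
    have inj := Fin.succAbove_right_injective (p := v)
    refine T3_five ⟨fun _ _ _ => h.s12 _ _ _, fun _ _ _ => h.s23 _ _ _, ?_⟩
    intro i j k l a b c d f g
    exact h.quad _ _ _ _ (fun t => a (inj t)) (fun t => b (inj t)) (fun t => c (inj t))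
      (fun t => d (inj t)) (fun t => f (inj t)) (fun t => g (inj t))
  have h3 := Finset.sum_le_sum fun v (_ : v ∈ (univ : Finset (Fin 6))) => h2 v
  rw [h1, Finset.sum_const, Finset.card_univ, Fintype.card_fin, smul_eq_mul] at h3
  omega

end trans

variable {V H : Type} [DecidableEq V] [Group H] [Fintype H] [MulAction H V] {m n : ℕ}

/-- triples in three orbits -/
noncomputable def X (E : Finset (Finset V)) (φ : Fin m × H → V) : ℕ :=
  ∑ i, ∑ j, ∑ k, if i ≠ j ∧ i ≠ k ∧ j ≠ k then N E φ i j k else 0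

/-- triples in two orbits -/
noncomputable def Y (E : Finset (Finset V)) (φ : Fin m × H → V) : ℕ :=
  ∑ i, ∑ j, if i ≠ j then N E φ i i j else 0

/-- triples in two orbits, one group element -/
noncomputable def Yv (E : Finset (Finset V)) (φ : Fin m × H → V) (v : H) : ℕ :=
  ∑ i, ∑ j, if i ≠ j then Pool.Agent.H422R3.T4O.P E φ v i j else 0

section
variable (E : Finset (Finset V)) (hE : ∀ e ∈ E, e.card = 3) (hfree : K4Free E) (hinv : Inv H E)
  (h2 : ∀ a : H, a * a = 1) (hact : ∀ (a : H) (x : V), a • x = x → a = 1)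

/-- shift by a sign -/
def shE (v : H) (s : Bool) : H ≃ H := if s then Equiv.mulLeft v else Equiv.refl H

omit [Fintype H] in
theorem shE_apply (v : H) (s : Bool) (x : H) : shE v s x = if s then v * x else x := by
  unfold shE; cases s <;> rfl

omit [MulAction H V] in
theorem sum_ie (φ : Fin (n + 3) × H → V) (v : H) (i j k : Fin (n + 3)) (a b c : Bool) :
    ∑ q : Fin (n + 3) → H, ie (ev E φ v q) (i, a) (j, b) (k, c) =
      if i ≠ j ∧ i ≠ k ∧ j ≠ k then Fintype.card H ^ n * N E φ i j k else 0 := by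
  classical
  by_cases hd : i ≠ j ∧ i ≠ k ∧ j ≠ k
  · rw [if_pos hd]
    have h1 : ∀ q : Fin (n + 3) → H, ie (ev E φ v q) (i, a) (j, b) (k, c) =
        ind E (φ (i, shE v a (q i))) (φ (j, shE v b (q j))) (φ (k, shE v c (q k))) := by
      intro q
      unfold ie ind ev sg
      simp only [shE_apply]
      refine if_congr ?_ rfl rfl
      rw [and_iff_right hd]
    rw [Finset.sum_congr rfl fun q _ => h1 q,
      sum_three' i j k hd.1 hd.2.1 hd.2.2 (fun x y z => ind E (φ (i, shE v a x))
        (φ (j, shE v b y)) (φ (k, shE v c z)))]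
    congr 1
    unfold N
    refine Fintype.sum_equiv (shE v a) _ _ fun x => Fintype.sum_equiv (shE v b) _ _ fun y =>
      Fintype.sum_equiv (shE v c) _ _ fun z => rfl
  · rw [if_neg hd]
    refine Finset.sum_eq_zero fun q _ => ?_
    unfold ie
    rw [if_neg (fun h => hd h.1)]

theorem sum_SS (φ : Fin (n + 3) × H → V) (v : H) :
    ∑ q : Fin (n + 3) → H, SS (ev E φ v q) = 8 * (Fintype.card H ^ n * X E φ) := by
  simp only [SS_eq_sum]
  rw [Finset.sum_comm]
  unfold X
  rw [Finset.mul_sum, Finset.mul_sum]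
  refine Finset.sum_congr rfl fun i _ => ?_
  rw [Finset.sum_comm, Finset.mul_sum, Finset.mul_sum]
  refine Finset.sum_congr rfl fun j _ => ?_
  rw [Finset.sum_comm, Finset.mul_sum, Finset.mul_sum]
  refine Finset.sum_congr rfl fun k _ => ?_
  rw [Finset.sum_comm]
  have h1 : ∀ a : Bool, ∑ q : Fin (n + 3) → H, ∑ b : Bool, ∑ c : Bool,
      ie (ev E φ v q) (i, a) (j, b) (k, c) =
      4 * if i ≠ j ∧ i ≠ k ∧ j ≠ k then Fintype.card H ^ n * N E φ i j k else 0 := by
    intro a
    rw [Finset.sum_comm]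
    have h3 : ∀ b : Bool, ∑ q : Fin (n + 3) → H, ∑ c : Bool,
        ie (ev E φ v q) (i, a) (j, b) (k, c) =
        2 * if i ≠ j ∧ i ≠ k ∧ j ≠ k then Fintype.card H ^ n * N E φ i j k else 0 := by
      intro b
      rw [Finset.sum_comm, Finset.sum_congr rfl fun c _ => sum_ie E φ v i j k a b c]
      rw [Finset.sum_const, Finset.card_univ, Fintype.card_bool, smul_eq_mul]
    rw [Finset.sum_congr rfl fun b _ => h3 b]
    rw [Finset.sum_const, Finset.card_univ, Fintype.card_bool, smul_eq_mul]
    ring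
  rw [Finset.sum_congr rfl fun a _ => h1 a]
  rw [Finset.sum_const, Finset.card_univ, Fintype.card_bool, smul_eq_mul]
  split_ifs <;> ring

theorem sum_AA (φ : Fin (n + 3) × H → V) (heq : ∀ i a v, φ (i, v * a) = v • φ (i, a)) (v : H) :
    ∑ q : Fin (n + 3) → H, AA (ov E φ v q) = Fintype.card H ^ (n + 1) * Yv E φ v := by
  classical
  unfold AA Yv
  rw [Finset.sum_comm, Finset.mul_sum]
  refine Finset.sum_congr rfl fun i _ => ?_
  rw [Finset.sum_comm, Finset.mul_sum]
  refine Finset.sum_congr rfl fun j _ => ?_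
  by_cases hij : i ≠ j
  · rw [if_pos hij]
    unfold Pool.Agent.H422R3.T4O.P
    rw [← sum_two' (n := n + 1) i j hij
      (fun a b => ind E (φ (i, a)) (v • φ (i, a)) (φ (j, b)))]
    refine Finset.sum_congr rfl fun q _ => ?_
    unfold ind ov sg
    refine ite_iff ?_
    rw [and_iff_right hij]
    simp only [if_true, Bool.false_eq_true, if_false, heq]
  · rw [if_neg hij, mul_zero]
    refine Finset.sum_eq_zero fun q _ => ?_
    rw [if_neg (fun h => hij h.1)]

include hfree hinv h2 in
/-- one group element -/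
theorem one_v {K : ℕ} (hK : ∀ (e : O6.P (n + 3) → O6.P (n + 3) → O6.P (n + 3) → Prop)
    (o : Fin (n + 3) → Fin (n + 3) → Prop), Lift (n + 3) e o → 24 * AA o + SS e ≤ K)
    (φ : Fin (n + 3) × H → V) (hφ : Function.Injective φ)
    (heq : ∀ i a v, φ (i, v * a) = v • φ (i, a)) (v : H) (hv : v ≠ 1) :
    24 * (Fintype.card H * Yv E φ v) + 8 * X E φ ≤ K * Fintype.card H ^ 3 := by
  classical
  have h1 : ∑ q : Fin (n + 3) → H, (24 * AA (ov E φ v q) + SS (ev E φ v q)) ≤
      ∑ _q : Fin (n + 3) → H, K :=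
    Finset.sum_le_sum fun q _ => hK _ _ (lift E hfree hinv h2 φ hφ heq v hv q)
  rw [Finset.sum_add_distrib, ← Finset.mul_sum, sum_AA E φ heq v, sum_SS E φ v,
    Finset.sum_const, Finset.card_univ, smul_eq_mul] at h1
  have h3 : Fintype.card (Fin (n + 3) → H) = Fintype.card H ^ (n + 3) := by simp
  rw [h3] at h1
  have hpos : 0 < Fintype.card H ^ n := pow_pos Fintype.card_pos n
  apply Nat.le_of_mul_le_mul_left (c := Fintype.card H ^ n) _ hpos
  calc Fintype.card H ^ n * (24 * (Fintype.card H * Yv E φ v) + 8 * X E φ)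
      = 24 * (Fintype.card H ^ (n + 1) * Yv E φ v) + 8 * (Fintype.card H ^ n * X E φ) := by ring
    _ ≤ _ := h1
    _ = Fintype.card H ^ n * (K * Fintype.card H ^ 3) := by ring

theorem Y_eq (φ : Fin m × H → V) (heq : ∀ i a v, φ (i, v * a) = v • φ (i, a)) :
    Y E φ = ∑ v : H, Yv E φ v := by
  unfold Y Yv
  have h1 : ∑ v : H, ∑ i : Fin m, ∑ j : Fin m,
      (if i ≠ j then Pool.Agent.H422R3.T4O.P E φ v i j else 0) =
      ∑ i : Fin m, ∑ v : H, ∑ j : Fin m,
      (if i ≠ j then Pool.Agent.H422R3.T4O.P E φ v i j else 0) := Finset.sum_comm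
  rw [h1]
  refine Finset.sum_congr rfl fun i _ => ?_
  have h3 : ∑ v : H, ∑ j : Fin m,
      (if i ≠ j then Pool.Agent.H422R3.T4O.P E φ v i j else 0) =
      ∑ j : Fin m, ∑ v : H,
      (if i ≠ j then Pool.Agent.H422R3.T4O.P E φ v i j else 0) := Finset.sum_comm
  rw [h3]
  refine Finset.sum_congr rfl fun j _ => ?_
  by_cases hij : i ≠ j
  · simp only [if_pos hij]
    exact N_eq_P E φ heq i j
  · simp only [if_neg hij, Finset.sum_const_zero]

include hE hfree hinv h2 in
/-- all group elements -/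
theorem all_v {K : ℕ} (hK : ∀ (e : O6.P (n + 3) → O6.P (n + 3) → O6.P (n + 3) → Prop)
    (o : Fin (n + 3) → Fin (n + 3) → Prop), Lift (n + 3) e o → 24 * AA o + SS e ≤ K)
    (φ : Fin (n + 3) × H → V) (hφ : Function.Injective φ)
    (heq : ∀ i a v, φ (i, v * a) = v • φ (i, a)) :
    24 * (Fintype.card H * Y E φ) + 8 * ((Fintype.card H - 1) * X E φ) ≤
      K * ((Fintype.card H - 1) * Fintype.card H ^ 3) := by
  classical
  have hY1 : Yv E φ 1 = 0 := by
    unfold Yv
    refine Finset.sum_eq_zero fun i _ => Finset.sum_eq_zero fun j _ => ?_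
    rw [P_one E hE]; simp
  have h3 : ∑ v ∈ univ.erase (1 : H), (24 * (Fintype.card H * Yv E φ v) + 8 * X E φ) ≤
      ∑ v ∈ univ.erase (1 : H), K * Fintype.card H ^ 3 :=
    Finset.sum_le_sum fun v hv => one_v E hfree hinv h2 hK φ hφ heq v (Finset.mem_erase.mp hv).1
  rw [Finset.sum_add_distrib, Finset.sum_const, Finset.sum_const, smul_eq_mul, smul_eq_mul,
    Finset.card_erase_of_mem (Finset.mem_univ _), Finset.card_univ, ← Finset.mul_sum,
    ← Finset.mul_sum] at h3
  have h5 : ∑ v ∈ univ.erase (1 : H), Yv E φ v = Y E φ := by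
    rw [Y_eq E φ heq, ← Finset.add_sum_erase univ _ (Finset.mem_univ (1 : H)), hY1, zero_add]
  rw [h5] at h3
  calc _ = 24 * (Fintype.card H * Y E φ) + (Fintype.card H - 1) * (8 * X E φ) := by ring
    _ ≤ _ := h3
    _ = _ := by ring

include hfree in
/-- transversals -/
theorem X_le {L : ℕ} (hL : ∀ R : Fin (n + 3) → Fin (n + 3) → Fin (n + 3) → Prop,
    Rel (n + 3) R → T3 R ≤ L) (φ : Fin (n + 3) × H → V) (hφ : Function.Injective φ) :
    X E φ ≤ L * Fintype.card H ^ 3 := by
  classical
  have h1 : ∑ q : Fin (n + 3) → H, T3 (fun i j k => ({φ (i, q i), φ (j, q j), φ (k, q k)} :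
      Finset V) ∈ E) = Fintype.card H ^ n * X E φ := by
    unfold T3 X
    rw [Finset.sum_comm, Finset.mul_sum]
    refine Finset.sum_congr rfl fun i _ => ?_
    rw [Finset.sum_comm, Finset.mul_sum]
    refine Finset.sum_congr rfl fun j _ => ?_
    rw [Finset.sum_comm, Finset.mul_sum]
    refine Finset.sum_congr rfl fun k _ => ?_
    by_cases hd : i ≠ j ∧ i ≠ k ∧ j ≠ k
    · rw [if_pos hd]
      unfold N
      rw [← sum_three' i j k hd.1 hd.2.1 hd.2.2
        (fun a b c => ind E (φ (i, a)) (φ (j, b)) (φ (k, c)))]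
      refine Finset.sum_congr rfl fun q _ => ?_
      unfold ind
      refine ite_iff ?_
      rw [and_iff_right hd]
    · rw [if_neg hd, mul_zero]
      refine Finset.sum_eq_zero fun q _ => ?_
      rw [if_neg (fun h => hd h.1)]
  have h3 : ∑ q : Fin (n + 3) → H, T3 (fun i j k => ({φ (i, q i), φ (j, q j), φ (k, q k)} :
      Finset V) ∈ E) ≤ ∑ _q : Fin (n + 3) → H, L := by
    refine Finset.sum_le_sum fun q _ => hL _ ⟨?_, ?_, ?_⟩
    · intro i j k h
      rw [Finset.insert_comm]; exact h
    · intro i j k h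
      rw [Finset.pair_comm (φ (k, q k))]; exact h
    · intro i j k l a b c d f g
      have ne : ∀ i j : Fin (n + 3), i ≠ j → φ (i, q i) ≠ φ (j, q j) :=
        fun i j hij h => hij (Prod.ext_iff.mp (hφ h)).1
      exact hfree _ _ _ _ (ne _ _ a) (ne _ _ b) (ne _ _ c) (ne _ _ d) (ne _ _ f) (ne _ _ g)
  rw [h1, Finset.sum_const, Finset.card_univ, smul_eq_mul] at h3
  have h4 : Fintype.card (Fin (n + 3) → H) = Fintype.card H ^ (n + 3) := by simp
  rw [h4] at h3
  have hpos : 0 < Fintype.card H ^ n := pow_pos Fintype.card_pos n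
  apply Nat.le_of_mul_le_mul_left (c := Fintype.card H ^ n) _ hpos
  calc _ ≤ _ := h3
    _ = _ := by ring

end

section
variable [Fintype V] (E : Finset (Finset V)) (hE : ∀ e ∈ E, e.card = 3) (hfree : K4Free E)
  (hinv : Inv H E)
  (h2 : ∀ a : H, a * a = 1) (hact : ∀ (a : H) (x : V), a • x = x → a = 1)

include hE hfree hinv h2 hact in
/-- the number of edges -/
theorem six_E (φ : Fin m × H → V) (hφ : Function.Bijective φ)
    (heq : ∀ i a v, φ (i, v * a) = v • φ (i, a)) : 6 * E.card = 3 * Y E φ + X E φ := by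
  classical
  rw [← six_card E hE, total E φ hφ]
  have key : ∀ i j k : Fin m, N E φ i j k = (if i = j then (if i ≠ k then N E φ i i k else 0) else 0)
      + (if i = k then (if i ≠ j then N E φ i i j else 0) else 0)
      + (if j = k then (if j ≠ i then N E φ j j i else 0) else 0)
      + (if i ≠ j ∧ i ≠ k ∧ j ≠ k then N E φ i j k else 0) := by
    intro i j k
    by_cases hij : i = j
    · subst hij
      by_cases hik : i = k
      · subst hik
        rw [N_same E hE hfree hinv h2 hact φ heq i]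
        simp only [ite_self, add_zero]
      · simp only [if_true, ne_eq, hik, not_false_eq_true, if_false, not_true_eq_false,
          false_and, add_zero]
    · by_cases hik : i = k
      · subst hik
        have hji : ¬ j = i := fun h => hij h.symm
        rw [N_comm23 E φ i j i]
        simp only [if_true, ne_eq, hij, hji, not_false_eq_true, if_false, not_true_eq_false,
          false_and, and_false, add_zero, zero_add]
      · by_cases hjk : j = k
        · subst hjk
          have hji : ¬ j = i := fun h => hij h.symm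
          rw [N_comm12 E φ i j j, N_comm23 E φ j i j]
          simp only [if_true, ne_eq, hij, hji, not_false_eq_true, if_false, not_true_eq_false,
            and_false, add_zero, zero_add]
        · rw [if_neg hij, if_neg hik, if_neg hjk, if_pos ⟨hij, hik, hjk⟩,
            zero_add, zero_add, zero_add]
  have e1 : ∑ i : Fin m, ∑ j : Fin m, ∑ k : Fin m,
      (if i = j then (if i ≠ k then N E φ i i k else 0) else 0) = Y E φ := by
    unfold Y
    refine Finset.sum_congr rfl fun i _ => ?_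
    rw [Finset.sum_comm]
    refine Finset.sum_congr rfl fun k _ => ?_
    rw [Finset.sum_ite_eq]; simp
  have e2 : ∑ i : Fin m, ∑ j : Fin m, ∑ k : Fin m,
      (if i = k then (if i ≠ j then N E φ i i j else 0) else 0) = Y E φ := by
    unfold Y
    refine Finset.sum_congr rfl fun i _ => Finset.sum_congr rfl fun j _ => ?_
    rw [Finset.sum_ite_eq]; simp
  have e3 : ∑ i : Fin m, ∑ j : Fin m, ∑ k : Fin m,
      (if j = k then (if j ≠ i then N E φ j j i else 0) else 0) = Y E φ := by
    unfold Y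
    rw [Finset.sum_comm]
    refine Finset.sum_congr rfl fun j _ => Finset.sum_congr rfl fun i _ => ?_
    rw [Finset.sum_ite_eq]; simp
  calc ∑ i, ∑ j, ∑ k, N E φ i j k
      = ∑ i, ∑ j, ∑ k, ((if i = j then (if i ≠ k then N E φ i i k else 0) else 0)
      + (if i = k then (if i ≠ j then N E φ i i j else 0) else 0)
      + (if j = k then (if j ≠ i then N E φ j j i else 0) else 0)
      + (if i ≠ j ∧ i ≠ k ∧ j ≠ k then N E φ i j k else 0)) :=
        Finset.sum_congr rfl fun i _ => Finset.sum_congr rfl fun j _ =>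
          Finset.sum_congr rfl fun k _ => key i j k
    _ = Y E φ + Y E φ + Y E φ + X E φ := by
        simp only [Finset.sum_add_distrib]
        rw [e1, e2, e3]
        rfl
    _ = _ := by ring

include hE hfree hinv h2 hact in
/-- the bound for the number of edges -/
theorem bound_E {K L : ℕ} (hK : ∀ (e : O6.P (n + 3) → O6.P (n + 3) → O6.P (n + 3) → Prop)
    (o : Fin (n + 3) → Fin (n + 3) → Prop), Lift (n + 3) e o → 24 * AA o + SS e ≤ K)
    (hL : ∀ R : Fin (n + 3) → Fin (n + 3) → Fin (n + 3) → Prop, Rel (n + 3) R → T3 R ≤ L)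
    (φ : Fin (n + 3) × H → V) (hφ : Function.Bijective φ)
    (heq : ∀ i a v, φ (i, v * a) = v • φ (i, a)) :
    48 * E.card ≤ K * ((Fintype.card H - 1) * Fintype.card H ^ 2) +
      8 * (L * Fintype.card H ^ 2) := by
  have a1 := six_E E hE hfree hinv h2 hact φ hφ heq
  have a2 := all_v E hE hfree hinv h2 hK φ hφ.injective heq
  have a3 := X_le E hfree hL φ hφ.injective
  have hpos : 0 < Fintype.card H := Fintype.card_pos
  obtain ⟨k, hk⟩ : ∃ k, Fintype.card H = k + 1 := ⟨Fintype.card H - 1, by omega⟩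
  rw [hk] at a2 a3 ⊢
  rw [Nat.add_sub_cancel] at a2 ⊢
  apply Nat.le_of_mul_le_mul_left (c := k + 1) _ (by omega)
  calc (k + 1) * (48 * E.card) = 8 * (k + 1) * (6 * E.card) := by ring
    _ = 8 * (k + 1) * (3 * Y E φ + X E φ) := by rw [a1]
    _ = (24 * ((k + 1) * Y E φ) + 8 * (k * X E φ)) + 8 * X E φ := by ring
    _ ≤ K * (k * (k + 1) ^ 3) + 8 * (L * (k + 1) ^ 3) :=
        Nat.add_le_add a2 (Nat.mul_le_mul_left 8 a3)
    _ = _ := by ring

end

end Pool.Agent.W286.O6
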